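import Mathlib
import Pool.Agent.Work.MP_d159ed_nt.Bd.B02
import Pool.Agent.Work.MP_d159ed_nt.Bd.B03
import Pool.Agent.Work.MP_d159ed_nt.Bd.B04

/-!
# MP_d159ed_nt, claim B4b: densification step of the counting lemma (helper41)
-/

set_option autoImplicit false

namespace D159

open Finset
open scoped BigOperators

namespace B4

variable {M : ℕ} [NeZero M]

/-- Average over the coordinate i. -/
noncomputable def av (i : Fin 5) (A : (Fin 5 → ZMod M) → ℝ) (x : Fin 5 → ZMod M) : ℝ :=
  𝔼 t : ZMod M, A (Function.update x i t)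

theorem av_update (i : Fin 5) (A : (Fin 5 → ZMod M) → ℝ) (x : Fin 5 → ZMod M) (t : ZMod M) :
    av i A (Function.update x i t) = av i A x := by
  unfold av
  simp only [Function.update_idem]

theorem expect_mul_av (i : Fin 5) (A B : (Fin 5 → ZMod M) → ℝ)
    (hB : ∀ x t, B (Function.update x i t) = B x) :
    𝔼 x : Fin 5 → ZMod M, B x * A x = 𝔼 x : Fin 5 → ZMod M, B x * av i A x := by
  rw [← expect_update i (fun x => B x * A x)]
  refine Finset.expect_congr rfl fun x _ => ?_
  simp only [hB]
  rw [← Finset.mul_expect]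
  rfl

theorem expect_av_av (i : Fin 5) (A A' B : (Fin 5 → ZMod M) → ℝ)
    (hB : ∀ x t, B (Function.update x i t) = B x) :
    𝔼 x : Fin 5 → ZMod M, B x * (av i A x * av i A' x) =
      𝔼 x : Fin 5 → ZMod M, 𝔼 t : ZMod M, B x * (A x * A' (Function.update x i t)) := by
  have h1 : 𝔼 x : Fin 5 → ZMod M, B x * (av i A x * av i A' x) =
      𝔼 x : Fin 5 → ZMod M, (B x * av i A' x) * av i A x := by
    refine Finset.expect_congr rfl fun x _ => ?_
    ring
  rw [h1, ← expect_mul_av i A (fun x => B x * av i A' x)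
    (fun x t => by simp only [hB, av_update])]
  refine Finset.expect_congr rfl fun x _ => ?_
  unfold av
  rw [Finset.mul_expect, Finset.expect_mul]
  refine Finset.expect_congr rfl fun t _ => ?_
  ring

/-- The linear forms averages of two copies. -/
theorem LF_pair {ν : ZMod M → ℝ} {ε : ℝ} (hLF : LF M ν ε) (i : Fin 5) (σ σ' : Fin 5 → Bool) :
    |(𝔼 x : Fin 5 → ZMod M, 𝔼 t : ZMod M, ∏ j ∈ univ.erase i,
      (maj ν (σ j) j x * maj ν (σ' j) j (Function.update x i t))) - 1| ≤ ε := by
  rw [← expect_dbl i (fun (x : Fin 5 → ZMod M) (t : ZMod M) => ∏ j ∈ univ.erase i,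
      (maj ν (σ j) j x * maj ν (σ' j) j (Function.update x i t)))]
  set A : Finset (Fin 5 × (Fin 5 → Bool)) := (univ.erase i).biUnion
    (fun l => B1.AS i l ∅ (σ l) (σ' l)) with hA
  have hE : ∀ x : Fin 5 → Bool → ZMod M, ∏ j ∈ univ.erase i,
      (maj ν (σ j) j (fun j => x j false) *
        maj ν (σ' j) j (Function.update (fun j => x j false) i (x i true))) =
      ∏ a ∈ A, ν (psi a.1 (pt x a.2)) := by
    intro x
    rw [hA, prod_biUnion]
    · refine prod_congr rfl fun l hl => ?_
      have hpair := B1.P_pair ν (σ l) (σ' l) i l ∅ (by simp) x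
      have hOm : B1.Om ∅ = {fun _ => false} := by
        ext ω
        rw [B1.mem_Om, mem_singleton]
        constructor
        · intro h
          funext j
          exact h j (by simp)
        · rintro rfl j _
          rfl
      have hpt : pt x (fun _ => false) = fun j => x j false := rfl
      have hpt' : pt (B1.sw i x) (fun _ => false) =
          Function.update (fun j => x j false) i (x i true) := by
        funext j
        by_cases hj : j = i
        · subst hj; simp [pt, B1.sw]
        · simp [pt, B1.sw, hj]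
      simp only [B1.P, hOm, prod_singleton, hpt, hpt'] at hpair
      rw [hpair]
      rfl
    · intro l hl l' hl' hne
      rw [Function.onFun, disjoint_left]
      intro a ha ha'
      have hli : l ≠ i := (mem_erase.1 hl).1
      have hli' : l' ≠ i := (mem_erase.1 hl').1
      have h1 := (B1.mem_AS ha (by simp) hli).1
      have h2 := (B1.mem_AS ha' (by simp) hli').1
      exact hne (h1.symm.trans h2)
  simp only [hE]
  apply hLF
  intro a ha
  rw [hA, mem_biUnion] at ha
  obtain ⟨l, hl, ha⟩ := ha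
  have hli : l ≠ i := (mem_erase.1 hl).1
  obtain ⟨h1, h2⟩ := B1.mem_AS ha (by simp) hli
  rw [B1.mem_Idx, h1]
  exact h2

theorem LF_one {ν : ZMod M → ℝ} {ε : ℝ} (hLF : LF M ν ε) (i : Fin 5) :
    |(𝔼 x : Fin 5 → ZMod M, ν (psi i x)) - 1| ≤ ε := by
  have h := hLF {(i, fun _ => false)} (by
    intro a ha
    rw [mem_singleton] at ha
    subst ha
    rw [B1.mem_Idx])
  simp only [prod_singleton] at h
  have h2 := expect_dbl i (fun (x : Fin 5 → ZMod M) (_ : ZMod M) => ν (psi i x))
  have h3 : ∀ x : Fin 5 → ZMod M, (𝔼 _t : ZMod M, ν (psi i x)) = ν (psi i x) := by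
    intro x
    rw [Fintype.expect_const]
  simp only [h3] at h2
  rw [← h2]
  exact h

end B4

/-- B4b: the densification step of the counting lemma. -/
theorem claimB4b : ClaimB4b := by
  intro b1 τ i hτ hC κ hκ
  obtain ⟨ε1, he1, H1⟩ := b1 (κ ^ 2 / 96) (by positivity)
  obtain ⟨ε2, he2, H2⟩ := hC (κ ^ 2 / 48) (by positivity)
  set ε : ℝ := min (min ε1 ε2) (min (κ / 2) (min 1 (κ ^ 4 / (21 * 576)))) with hεdef
  have hε : 0 < ε := by positivity
  have hε1 : ε ≤ ε1 := (min_le_left _ _).trans (min_le_left _ _)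
  have hε2 : ε ≤ ε2 := (min_le_left _ _).trans (min_le_right _ _)
  have hε3 : ε ≤ κ / 2 := (min_le_right _ _).trans (min_le_left _ _)
  have hε4 : ε ≤ 1 := (min_le_right _ _).trans ((min_le_right _ _).trans (min_le_left _ _))
  have hε5 : ε ≤ κ ^ 4 / (21 * 576) :=
    (min_le_right _ _).trans ((min_le_right _ _).trans (min_le_right _ _))
  clear_value ε
  refine ⟨ε, hε, ?_⟩
  intro M _ ν hν hLF F G hF hG hFb hGb hcut
  have hLF1 : LF M ν ε1 := fun A hA => (hLF A hA).trans hε1
  have hLF2 : LF M ν ε2 := fun A hA => (hLF A hA).trans hε2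
  -- notation
  set pF : (Fin 5 → ZMod M) → ℝ := fun x => ∏ j ∈ univ.erase i, F j x with hpF
  set pG : (Fin 5 → ZMod M) → ℝ := fun x => ∏ j ∈ univ.erase i, G j x with hpG
  set pW : (Fin 5 → ZMod M) → ℝ := fun x => ∏ j ∈ univ.erase i, maj ν (τ j) j x with hpW
  set f' := B4.av i pF with hf'
  set g' := B4.av i pG with hg'
  set ν' := B4.av i pW with hν'
  set νi : (Fin 5 → ZMod M) → ℝ := fun x => ν (psi i x) with hνi
  have hνiU : ∀ x t, νi (Function.update x i t) = νi x := by
    intro x t
    simp only [hνi, B1.psi_update]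
  have hf'U : ∀ x t, f' (Function.update x i t) = f' x := fun x t => B4.av_update i pF x t
  have hg'U : ∀ x t, g' (Function.update x i t) = g' x := fun x t => B4.av_update i pG x t
  have hpF0 : ∀ x, 0 ≤ pF x := fun x => prod_nonneg fun j _ => (hFb j x).1
  have hpG0 : ∀ x, 0 ≤ pG x := fun x => prod_nonneg fun j _ => (hGb j x).1
  have hpFW : ∀ x, pF x ≤ pW x := fun x =>
    prod_le_prod (fun j _ => (hFb j x).1) fun j _ => (hFb j x).2
  have hpG1 : ∀ x, pG x ≤ 1 := fun x =>
    prod_le_one (fun j _ => (hGb j x).1) fun j _ => (hGb j x).2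
  have hf'0 : ∀ x, 0 ≤ f' x := fun x => Finset.expect_nonneg fun t _ => hpF0 _
  have hg'0 : ∀ x, 0 ≤ g' x := fun x => Finset.expect_nonneg fun t _ => hpG0 _
  have hf'W : ∀ x, f' x ≤ ν' x := fun x => Finset.expect_le_expect fun t _ => hpFW _
  have hg'1 : ∀ x, g' x ≤ 1 := fun x =>
    Finset.expect_le Finset.univ_nonempty fun t _ => hpG1 _
  -- decomposition
  have hdF : 𝔼 x : Fin 5 → ZMod M, ∏ j, F j x = 𝔼 x : Fin 5 → ZMod M, F i x * f' x := by
    rw [hf', ← B4.expect_mul_av i pF (F i) (hF i)]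
    refine Finset.expect_congr rfl fun x _ => ?_
    rw [hpF]
    exact (mul_prod_erase univ (fun j => F j x) (mem_univ i)).symm
  have hdG : 𝔼 x : Fin 5 → ZMod M, ∏ j, G j x = 𝔼 x : Fin 5 → ZMod M, G i x * g' x := by
    rw [hg', ← B4.expect_mul_av i pG (G i) (hG i)]
    refine Finset.expect_congr rfl fun x _ => ?_
    rw [hpG]
    exact (mul_prod_erase univ (fun j => G j x) (mem_univ i)).symm
  have hdiff : (𝔼 x : Fin 5 → ZMod M, ∏ j, F j x) - 𝔼 x : Fin 5 → ZMod M, ∏ j, G j x =
      (𝔼 x : Fin 5 → ZMod M, F i x * (f' x - g' x)) +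
        𝔼 x : Fin 5 → ZMod M, (F i x - G i x) * g' x := by
    rw [hdF, hdG, ← Finset.expect_sub_distrib, ← Finset.expect_add_distrib]
    refine Finset.expect_congr rfl fun x _ => ?_
    ring
  -- second term
  have hsecond : |𝔼 x : Fin 5 → ZMod M, (F i x - G i x) * g' x| ≤ ε := by
    have e : 𝔼 x : Fin 5 → ZMod M, (F i x - G i x) * g' x =
        𝔼 t : ZMod M, 𝔼 x : Fin 5 → ZMod M,
          (F i x - G i x) * pG (Function.update x i t) := by
      rw [Finset.expect_comm]
      refine Finset.expect_congr rfl fun x _ => ?_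
      rw [← Finset.mul_expect]
      rfl
    rw [e]
    refine abs_expect_le_of _ _ fun t => ?_
    refine hcut i (fun j x => G j (Function.update x i t)) ?_ ?_ ?_
    · intro j y s
      by_cases hji : j = i
      · subst hji
        show G j (Function.update (Function.update y j s) j t) = _
        rw [Function.update_idem]
      · show G j (Function.update (Function.update y j s) i t) = _
        rw [Function.update_comm hji, hG]
    · intro j y s
      show G j (Function.update (Function.update y i s) i t) = _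
      rw [Function.update_idem]
    · intro j y
      exact hGb j _
  -- linear forms
  have hE1 : 𝔼 x : Fin 5 → ZMod M, νi x ≤ 2 := by
    have := (abs_le.1 (B4.LF_one hLF i)).2
    linarith
  have hν'1 : |(𝔼 x : Fin 5 → ZMod M, ν' x) - 1| ≤ ε := by
    have h := B4.LF_pair hLF i τ (fun _ => false)
    have e : (𝔼 x : Fin 5 → ZMod M, 𝔼 t : ZMod M, ∏ j ∈ univ.erase i,
        (maj ν (τ j) j x * maj ν false j (Function.update x i t))) =
        𝔼 x : Fin 5 → ZMod M, ν' x := by
      have h1 := B4.expect_mul_av i pW (fun _ => 1) (fun _ _ => rfl)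
      simp only [one_mul] at h1
      rw [hν', ← h1]
      refine Finset.expect_congr rfl fun x _ => ?_
      have h2 : ∀ t : ZMod M, ∏ j ∈ univ.erase i,
          (maj ν (τ j) j x * maj ν false j (Function.update x i t)) = pW x := by
        intro t
        rw [hpW]
        refine prod_congr rfl fun j _ => ?_
        simp [maj]
      simp only [h2]
      rw [Fintype.expect_const]
    rw [e] at h
    exact h
  have hν'2 : |(𝔼 x : Fin 5 → ZMod M, ν' x ^ 2) - 1| ≤ ε := by
    have h := B4.LF_pair hLF i τ τ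
    have e : (𝔼 x : Fin 5 → ZMod M, 𝔼 t : ZMod M, ∏ j ∈ univ.erase i,
        (maj ν (τ j) j x * maj ν (τ j) j (Function.update x i t))) =
        𝔼 x : Fin 5 → ZMod M, ν' x ^ 2 := by
      have h1 := B4.expect_av_av i pW pW (fun _ => 1) (fun _ _ => rfl)
      simp only [one_mul] at h1
      simp only [sq]
      rw [hν', h1]
      refine Finset.expect_congr rfl fun x _ => Finset.expect_congr rfl fun t _ => ?_
      rw [prod_mul_distrib]
    rw [e] at h
    exact h
  have hm : 𝔼 x : Fin 5 → ZMod M, (ν' x - 1) ^ 2 ≤ 3 * ε := by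
    have e : 𝔼 x : Fin 5 → ZMod M, (ν' x - 1) ^ 2 =
        (𝔼 x : Fin 5 → ZMod M, ν' x ^ 2) - 2 * (𝔼 x : Fin 5 → ZMod M, ν' x) + 1 := by
      have h1 : ∀ x : Fin 5 → ZMod M, (ν' x - 1) ^ 2 = ν' x ^ 2 - 2 * ν' x + 1 := by
        intro x; ring
      simp only [h1]
      rw [Finset.expect_add_distrib, Finset.expect_sub_distrib, ← Finset.mul_expect,
        Fintype.expect_const]
    rw [e]
    have := (abs_le.1 hν'1).1
    have := (abs_le.1 hν'2).2
    linarith
  have hp : 𝔼 x : Fin 5 → ZMod M, (ν' x + 1) ^ 2 ≤ 7 := by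
    have e : 𝔼 x : Fin 5 → ZMod M, (ν' x + 1) ^ 2 =
        (𝔼 x : Fin 5 → ZMod M, ν' x ^ 2) + 2 * (𝔼 x : Fin 5 → ZMod M, ν' x) + 1 := by
      have h1 : ∀ x : Fin 5 → ZMod M, (ν' x + 1) ^ 2 = ν' x ^ 2 + 2 * ν' x + 1 := by
        intro x; ring
      simp only [h1]
      rw [Finset.expect_add_distrib, Finset.expect_add_distrib, ← Finset.mul_expect,
        Fintype.expect_const]
    rw [e]
    have := (abs_le.1 hν'1).2
    have := (abs_le.1 hν'2).2
    linarith
  -- the four terms with ν - 1
  have hfour : ∀ (σ σ' : Fin 5 → Bool) (A A' : Fin 5 → (Fin 5 → ZMod M) → ℝ),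
      (∀ j x t, A j (Function.update x j t) = A j x) →
      (∀ j x t, A' j (Function.update x j t) = A' j x) →
      (∀ j x, 0 ≤ A j x ∧ A j x ≤ maj ν (σ j) j x) →
      (∀ j x, 0 ≤ A' j x ∧ A' j x ≤ maj ν (σ' j) j x) →
      |𝔼 x : Fin 5 → ZMod M, (νi x - 1) * (B4.av i (fun x => ∏ j ∈ univ.erase i, A j x) x *
        B4.av i (fun x => ∏ j ∈ univ.erase i, A' j x) x)| ≤ κ ^ 2 / 96 := by
    intro σ σ' A A' hA hA' hAb hAb'
    rw [B4.expect_av_av i _ _ (fun x => νi x - 1) (fun x t => by simp only [hνiU])]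
    have h := H1 M ν hν hLF1 i σ σ' A A' hA hA' hAb hAb'
    simp only [prod_mul_distrib] at h
    exact h
  have hGb' : ∀ j x, 0 ≤ G j x ∧ G j x ≤ maj ν ((fun _ : Fin 5 => false) j) j x := by
    intro j x
    have := hGb j x
    simpa [maj] using this
  have hff := hfour τ τ F F hF hF hFb hFb
  have hfg := hfour τ (fun _ => false) F G hF hG hFb hGb'
  have hgg := hfour (fun _ => false) (fun _ => false) G G hG hG hGb' hGb'
  have hnu : 𝔼 x : Fin 5 → ZMod M, (νi x - 1) * (f' x - g' x) ^ 2 ≤ κ ^ 2 / 24 := by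
    have e : 𝔼 x : Fin 5 → ZMod M, (νi x - 1) * (f' x - g' x) ^ 2 =
        (𝔼 x : Fin 5 → ZMod M, (νi x - 1) * (f' x * f' x)) -
        2 * (𝔼 x : Fin 5 → ZMod M, (νi x - 1) * (f' x * g' x)) +
        𝔼 x : Fin 5 → ZMod M, (νi x - 1) * (g' x * g' x) := by
      rw [Finset.mul_expect, ← Finset.expect_sub_distrib, ← Finset.expect_add_distrib]
      refine Finset.expect_congr rfl fun x _ => ?_
      ring
    rw [e]
    have h1 := (abs_le.1 hff).2
    have h2 := (abs_le.1 hfg).1
    have h3 := (abs_le.1 hgg).2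
    have h1' : 𝔼 x : Fin 5 → ZMod M, (νi x - 1) * (f' x * f' x) ≤ κ ^ 2 / 96 := h1
    have h2' : -(κ ^ 2 / 96) ≤ 𝔼 x : Fin 5 → ZMod M, (νi x - 1) * (f' x * g' x) := h2
    have h3' : 𝔼 x : Fin 5 → ZMod M, (νi x - 1) * (g' x * g' x) ≤ κ ^ 2 / 96 := h3
    linarith
  -- dense counting
  have hdense : ∀ w : (Fin 5 → ZMod M) → ℝ, (∀ x t, w (Function.update x i t) = w x) →
      (∀ x, 0 ≤ w x ∧ w x ≤ 1) →
      |𝔼 x : Fin 5 → ZMod M, w x * (f' x - g' x)| ≤ κ ^ 2 / 48 := by
    intro w hw hw1
    have h := H2 M ν hν hLF2 (Function.update F i w) (Function.update G i w) ?_ ?_ ?_ ?_ ?_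
    · have eF : 𝔼 x : Fin 5 → ZMod M, ∏ j, Function.update F i w j x =
          𝔼 x : Fin 5 → ZMod M, w x * f' x := by
        rw [hf', ← B4.expect_mul_av i pF w hw]
        refine Finset.expect_congr rfl fun x _ => ?_
        rw [← mul_prod_erase univ _ (mem_univ i), Function.update_self]
        congr 1
        rw [hpF]
        refine prod_congr rfl fun j hj => ?_
        rw [Function.update_of_ne (mem_erase.1 hj).1]
      have eG : 𝔼 x : Fin 5 → ZMod M, ∏ j, Function.update G i w j x =
          𝔼 x : Fin 5 → ZMod M, w x * g' x := by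
        rw [hg', ← B4.expect_mul_av i pG w hw]
        refine Finset.expect_congr rfl fun x _ => ?_
        rw [← mul_prod_erase univ _ (mem_univ i), Function.update_self]
        congr 1
        rw [hpG]
        refine prod_congr rfl fun j hj => ?_
        rw [Function.update_of_ne (mem_erase.1 hj).1]
      rw [eF, eG, ← Finset.expect_sub_distrib] at h
      simpa only [mul_sub] using h
    · intro j x t
      by_cases hji : j = i
      · subst hji; rw [Function.update_self]; exact hw x t
      · rw [Function.update_of_ne hji]; exact hF j x t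
    · intro j x t
      by_cases hji : j = i
      · subst hji; rw [Function.update_self]; exact hw x t
      · rw [Function.update_of_ne hji]; exact hG j x t
    · intro j x
      by_cases hji : j = i
      · subst hji
        rw [Function.update_self, Function.update_self]
        simpa [maj] using hw1 x
      · rw [Function.update_of_ne hji, Function.update_of_ne hji]; exact hFb j x
    · intro j x
      by_cases hji : j = i
      · subst hji; rw [Function.update_self]; exact hw1 x
      · rw [Function.update_of_ne hji]; exact hGb j x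
    · intro j
      by_cases hji : j = i
      · subst hji
        intro u _ _ _
        simp only [Function.update_self, sub_self, zero_mul]
        rw [Finset.expect_const_zero, abs_zero]
        exact he2.le
      · intro u hu1 hu2 hu3
        rw [Function.update_of_ne hji, Function.update_of_ne hji]
        exact (hcut j u hu1 hu2 hu3).trans hε2
  set f2 : (Fin 5 → ZMod M) → ℝ := fun x => min (f' x) 1 with hf2
  have hd1 := hdense f2 (fun x t => by simp only [hf2, hf'U])
    (fun x => ⟨le_min (hf'0 x) zero_le_one, min_le_right _ _⟩)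
  have hd2 := hdense g' hg'U (fun x => ⟨hg'0 x, hg'1 x⟩)
  -- truncation error
  have htr : |𝔼 x : Fin 5 → ZMod M, (f' x - f2 x) * (f' x - g' x)| ≤ κ ^ 2 / 24 := by
    have h1 : |𝔼 x : Fin 5 → ZMod M, (f' x - f2 x) * (f' x - g' x)| ≤
        𝔼 x : Fin 5 → ZMod M, |ν' x - 1| * |ν' x + 1| := by
      refine (abs_expect_le' _).trans (Finset.expect_le_expect fun x _ => ?_)
      rw [abs_mul]
      refine mul_le_mul ?_ ?_ (abs_nonneg _) (abs_nonneg _)
      · rcases le_total (f' x) 1 with h | h
        · simp only [hf2, min_eq_left h, sub_self, abs_zero]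
          exact abs_nonneg _
        · simp only [hf2, min_eq_right h]
          have h2 := hf'W x
          rw [abs_of_nonneg (by linarith), abs_of_nonneg (by linarith)]
          linarith
      · have h2 := hf'W x
        have h3 := hf'0 x
        have h4 := hg'0 x
        have h5 := hg'1 x
        rw [abs_le, abs_of_nonneg (by linarith)]
        constructor <;> linarith
    have h2 := Finset.expect_mul_sq_le_sq_mul_sq (Finset.univ : Finset (Fin 5 → ZMod M))
      (fun x => |ν' x - 1|) (fun x => |ν' x + 1|)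
    simp only [sq_abs] at h2
    have h3 : (𝔼 x : Fin 5 → ZMod M, |ν' x - 1| * |ν' x + 1|) ^ 2 ≤ (κ ^ 2 / 24) ^ 2 := by
      refine h2.trans ?_
      calc (𝔼 x : Fin 5 → ZMod M, (ν' x - 1) ^ 2) * 𝔼 x : Fin 5 → ZMod M, (ν' x + 1) ^ 2
          ≤ (3 * ε) * 7 := by
            refine mul_le_mul hm hp ?_ (by positivity)
            exact Finset.expect_nonneg fun x _ => sq_nonneg _
        _ ≤ (3 * (κ ^ 4 / (21 * 576))) * 7 := by
            gcongr
        _ = (κ ^ 2 / 24) ^ 2 := by ring
    exact h1.trans (le_trans (le_abs_self _) (abs_le_of_sq_le_sq h3 (by positivity)))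
  have hsq : 𝔼 x : Fin 5 → ZMod M, (f' x - g' x) ^ 2 ≤ κ ^ 2 / 12 := by
    have e : 𝔼 x : Fin 5 → ZMod M, (f' x - g' x) ^ 2 =
        (𝔼 x : Fin 5 → ZMod M, f2 x * (f' x - g' x)) +
        (𝔼 x : Fin 5 → ZMod M, (f' x - f2 x) * (f' x - g' x)) -
        𝔼 x : Fin 5 → ZMod M, g' x * (f' x - g' x) := by
      rw [← Finset.expect_add_distrib, ← Finset.expect_sub_distrib]
      refine Finset.expect_congr rfl fun x _ => ?_
      ring
    rw [e]
    have h1 := (abs_le.1 hd1).2
    have h2 := (abs_le.1 hd2).1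
    have h3 := (abs_le.1 htr).2
    linarith
  have hD : 𝔼 x : Fin 5 → ZMod M, νi x * |f' x - g' x| ^ 2 ≤ κ ^ 2 / 8 := by
    have e : 𝔼 x : Fin 5 → ZMod M, νi x * |f' x - g' x| ^ 2 =
        (𝔼 x : Fin 5 → ZMod M, (νi x - 1) * (f' x - g' x) ^ 2) +
        𝔼 x : Fin 5 → ZMod M, (f' x - g' x) ^ 2 := by
      rw [← Finset.expect_add_distrib]
      refine Finset.expect_congr rfl fun x _ => ?_
      rw [sq_abs]
      ring
    rw [e]
    linarith
  have hfirst : |𝔼 x : Fin 5 → ZMod M, F i x * (f' x - g' x)| ≤ κ / 2 := by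
    have h1 : |𝔼 x : Fin 5 → ZMod M, F i x * (f' x - g' x)| ≤
        𝔼 x : Fin 5 → ZMod M, νi x * |f' x - g' x| := by
      refine (abs_expect_le' _).trans (Finset.expect_le_expect fun x _ => ?_)
      rw [abs_mul]
      refine mul_le_mul_of_nonneg_right ?_ (abs_nonneg _)
      have := hFb i x
      rw [abs_of_nonneg this.1]
      refine this.2.trans (le_of_eq ?_)
      simp [maj, hτ, hνi]
    have h2 := expect_cs νi (fun x => |f' x - g' x|) (fun x => hν _)
    have h3 : (𝔼 x : Fin 5 → ZMod M, νi x * |f' x - g' x|) ^ 2 ≤ (κ / 2) ^ 2 := by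
      refine h2.trans ?_
      calc (𝔼 x : Fin 5 → ZMod M, νi x) * 𝔼 x : Fin 5 → ZMod M, νi x * |f' x - g' x| ^ 2
          ≤ 2 * (κ ^ 2 / 8) := by
            refine mul_le_mul hE1 hD ?_ (by norm_num)
            exact Finset.expect_nonneg fun x _ => mul_nonneg (hν _) (sq_nonneg _)
        _ = (κ / 2) ^ 2 := by ring
    exact h1.trans (le_trans (le_abs_self _) (abs_le_of_sq_le_sq h3 (by positivity)))
  rw [hdiff]
  calc |(𝔼 x : Fin 5 → ZMod M, F i x * (f' x - g' x)) +
        𝔼 x : Fin 5 → ZMod M, (F i x - G i x) * g' x|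
      ≤ |𝔼 x : Fin 5 → ZMod M, F i x * (f' x - g' x)| +
        |𝔼 x : Fin 5 → ZMod M, (F i x - G i x) * g' x| := abs_add_le _ _
    _ ≤ κ := by linarith

end D159
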