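import Pool.Agent.Work.MP_d159ed_nt.Bd.B01

/-!
D8a: scale selection.
-/

set_option autoImplicit false

namespace D159

open Finset Filter Topology

/-! ### elementary estimates -/

/-- `1 - e^{-h} >= h e^{-h}` -/
theorem d8_one_sub_exp (h : ℝ) : h * Real.exp (-h) ≤ 1 - Real.exp (-h) := by
  have h1 := Real.add_one_le_exp h
  have h2 := mul_le_mul_of_nonneg_right h1 (Real.exp_pos (-h)).le
  rw [← Real.exp_add, add_neg_cancel, Real.exp_zero] at h2
  linarith

/-- discrete substitute for the Gamma integral -/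
theorem d8_gamma_sum (h : ℝ) (hh : 0 < h) (m N : ℕ) :
    ∑ j ∈ range N, (h * ((j : ℝ) + 1)) ^ m * Real.exp (-(h * ((j : ℝ) + 1))) /
      (m.factorial : ℝ) ≤ Real.exp (h * (m + 1)) / h := by
  set r : ℝ := Real.exp (-h) with hr
  have hr0 : 0 < r := Real.exp_pos _
  have hr1 : r < 1 := by rw [hr, Real.exp_lt_one_iff]; linarith
  have hnorm : ‖r‖ < 1 := by rw [Real.norm_eq_abs, abs_of_pos hr0]; exact hr1
  have hs := summable_choose_mul_geometric_of_norm_lt_one m hnorm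
  have ht := tsum_choose_mul_geometric_of_norm_lt_one m hnorm
  have h1r : 0 < 1 - r := by linarith
  have hfac : (0 : ℝ) < m.factorial := by exact_mod_cast m.factorial_pos
  have hterm : ∀ j : ℕ, (h * ((j : ℝ) + 1)) ^ m * Real.exp (-(h * ((j : ℝ) + 1))) /
      (m.factorial : ℝ) ≤ h ^ m * (((j + m).choose m : ℝ) * r ^ j) := by
    intro j
    have e1 : Real.exp (-(h * ((j : ℝ) + 1))) = r ^ j * r := by
      rw [hr, ← Real.exp_nat_mul, ← Real.exp_add]; congr 1; ring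
    have e2 : ((j : ℝ) + 1) ^ m ≤ (m.factorial : ℝ) * ((j + m).choose m : ℝ) := by
      have := Nat.pow_succ_le_ascFactorial (j + 1) m
      rw [Nat.ascFactorial_eq_factorial_mul_choose] at this
      exact_mod_cast this
    rw [e1, mul_pow, div_le_iff₀ hfac]
    have e3 : r ^ j * r ≤ r ^ j := mul_le_of_le_one_right (by positivity) hr1.le
    calc h ^ m * ((j : ℝ) + 1) ^ m * (r ^ j * r)
        ≤ h ^ m * ((m.factorial : ℝ) * ((j + m).choose m : ℝ)) * r ^ j := by gcongr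
      _ = h ^ m * (((j + m).choose m : ℝ) * r ^ j) * (m.factorial : ℝ) := by ring
  calc ∑ j ∈ range N, (h * ((j : ℝ) + 1)) ^ m * Real.exp (-(h * ((j : ℝ) + 1))) /
        (m.factorial : ℝ) ≤ ∑ j ∈ range N, h ^ m * (((j + m).choose m : ℝ) * r ^ j) :=
        sum_le_sum fun j _ => hterm j
    _ = h ^ m * ∑ j ∈ range N, (((j + m).choose m : ℝ) * r ^ j) := by rw [mul_sum]
    _ ≤ h ^ m * ∑' j : ℕ, (((j + m).choose m : ℝ) * r ^ j) := by
        apply mul_le_mul_of_nonneg_left _ (by positivity)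
        exact hs.sum_le_tsum _ fun j _ => by positivity
    _ = h ^ m * (1 / (1 - r) ^ (m + 1)) := by rw [ht]
    _ ≤ Real.exp (h * (m + 1)) / h := by
        have e4 : h * r ≤ 1 - r := d8_one_sub_exp h
        have e5 : (h * r) ^ (m + 1) ≤ (1 - r) ^ (m + 1) :=
          pow_le_pow_left₀ (by positivity) e4 _
        have e6 : Real.exp (h * (m + 1)) * r ^ (m + 1) = 1 := by
          have e0 : h * (m + 1) + ((m + 1 : ℕ) : ℝ) * (-h) = 0 := by push_cast; ring
          rw [hr, ← Real.exp_nat_mul, ← Real.exp_add, e0, Real.exp_zero]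
        rw [mul_one_div, div_le_div_iff₀ (by positivity) hh]
        calc h ^ m * h = Real.exp (h * (m + 1)) * r ^ (m + 1) * h ^ (m + 1) := by
              rw [e6, one_mul, pow_succ]
          _ = Real.exp (h * (m + 1)) * (h * r) ^ (m + 1) := by rw [mul_pow]; ring
          _ ≤ Real.exp (h * (m + 1)) * (1 - r) ^ (m + 1) :=
              mul_le_mul_of_nonneg_left e5 (Real.exp_pos _).le

theorem d8_geom_sum (x : ℝ) (hx : 0 < x) (N : ℕ) :
    ∑ j ∈ range N, Real.exp (-(x * ((j : ℝ) + 1))) ≤ 1 / x := by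
  set r : ℝ := Real.exp (-x) with hr
  have hr0 : 0 < r := Real.exp_pos _
  have hr1 : r < 1 := by rw [hr, Real.exp_lt_one_iff]; linarith
  have e1 : ∀ j : ℕ, Real.exp (-(x * ((j : ℝ) + 1))) = r * r ^ j := by
    intro j
    rw [hr, ← Real.exp_nat_mul, ← Real.exp_add]; congr 1; ring
  simp only [e1]
  rw [← mul_sum]
  have h1 : ∑ j ∈ range N, r ^ j ≤ 1 / (1 - r) := by
    have h2 := (summable_geometric_of_lt_one hr0.le hr1).sum_le_tsum (range N)
      (fun j _ => by positivity)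
    rwa [tsum_geometric_of_lt_one hr0.le hr1, ← one_div] at h2
  have h3 : 0 < 1 - r := by linarith
  have h4 := d8_one_sub_exp x
  calc r * ∑ j ∈ range N, r ^ j ≤ r * (1 / (1 - r)) := mul_le_mul_of_nonneg_left h1 hr0.le
    _ ≤ 1 / x := by
        rw [mul_one_div, div_le_div_iff₀ h3 hx, one_mul]
        rw [mul_comm]; exact h4

/-- the terms of the series -/
noncomputable def d8F (a : ℕ → ℝ) (η T : ℝ) (m k : ℕ) : ℝ :=
  a k / k * (k : ℝ) ^ (-η) * (Real.log k + T + 1) ^ (m + 1) / (m.factorial : ℝ)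

theorem d8F_nonneg {a : ℕ → ℝ} (ha : ∀ k, 0 ≤ a k) {η T : ℝ} (hT : 0 ≤ T) (m k : ℕ) :
    0 ≤ d8F a η T m k := by
  unfold d8F
  have h1 : 0 ≤ Real.log k := Real.log_natCast_nonneg k
  have := ha k
  positivity

/-- block bound -/
theorem d8_block {a : ℕ → ℝ} (ha : ∀ k, 0 ≤ a k) {η T : ℝ} (hη : 0 ≤ η) (hT : 0 ≤ T) (m j : ℕ)
    {Bd : ℝ} (hB : ∑ k ∈ Ico (2 ^ j) (2 ^ (j + 1)), a k ≤ Bd) :
    ∑ k ∈ Ico (2 ^ j) (2 ^ (j + 1)), d8F a η T m k ≤
      Bd / 2 ^ j * (Real.exp (-(η * (j * Real.log 2))) *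
        (((j : ℝ) + 1) * Real.log 2 + T + 1) ^ (m + 1) / (m.factorial : ℝ)) := by
  have hfac : (0 : ℝ) < m.factorial := by exact_mod_cast m.factorial_pos
  have hl2 : 0 < Real.log 2 := Real.log_pos one_lt_two
  set G : ℝ := Real.exp (-(η * (j * Real.log 2))) *
    (((j : ℝ) + 1) * Real.log 2 + T + 1) ^ (m + 1) / (m.factorial : ℝ) with hG
  have hG0 : 0 ≤ G := by positivity
  have hpt : ∀ k ∈ Ico (2 ^ j) (2 ^ (j + 1)), d8F a η T m k ≤ a k * (1 / 2 ^ j * G) := by
    intro k hk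
    rw [mem_Ico] at hk
    have hk1 : (2 : ℝ) ^ j ≤ k := by exact_mod_cast hk.1
    have hk2 : (k : ℝ) ≤ 2 ^ (j + 1) := by exact_mod_cast hk.2.le
    have h2j : (0 : ℝ) < 2 ^ j := by positivity
    have hk0 : (0 : ℝ) < k := lt_of_lt_of_le h2j hk1
    have e1 : (k : ℝ) ^ (-η) ≤ Real.exp (-(η * (j * Real.log 2))) := by
      rw [Real.rpow_def_of_pos hk0]
      apply Real.exp_le_exp.2
      have : j * Real.log 2 ≤ Real.log k := by
        rw [← Real.log_pow]; exact Real.log_le_log h2j hk1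
      nlinarith
    have e2 : Real.log k ≤ ((j : ℝ) + 1) * Real.log 2 := by
      have : Real.log k ≤ Real.log (2 ^ (j + 1)) := Real.log_le_log hk0 hk2
      rw [Real.log_pow] at this
      exact_mod_cast this
    have e3 : 0 ≤ Real.log k := Real.log_natCast_nonneg k
    have e4 : 1 / (k : ℝ) ≤ 1 / 2 ^ j := one_div_le_one_div_of_le h2j hk1
    have e5 : (Real.log k + T + 1) ^ (m + 1) ≤
        (((j : ℝ) + 1) * Real.log 2 + T + 1) ^ (m + 1) :=
      pow_le_pow_left₀ (by positivity) (by linarith) _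
    have hak := ha k
    unfold d8F
    calc a k / k * (k : ℝ) ^ (-η) * (Real.log k + T + 1) ^ (m + 1) / (m.factorial : ℝ)
        = a k * (1 / k) * ((k : ℝ) ^ (-η) * (Real.log k + T + 1) ^ (m + 1) /
          (m.factorial : ℝ)) := by ring
      _ ≤ a k * (1 / 2 ^ j) * G := by
          rw [hG]
          gcongr
      _ = a k * (1 / 2 ^ j * G) := by ring
  calc ∑ k ∈ Ico (2 ^ j) (2 ^ (j + 1)), d8F a η T m k
      ≤ ∑ k ∈ Ico (2 ^ j) (2 ^ (j + 1)), a k * (1 / 2 ^ j * G) := sum_le_sum hpt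
    _ = (∑ k ∈ Ico (2 ^ j) (2 ^ (j + 1)), a k) * (1 / 2 ^ j * G) := by rw [sum_mul]
    _ ≤ Bd * (1 / 2 ^ j * G) := mul_le_mul_of_nonneg_right hB (by positivity)
    _ = Bd / 2 ^ j * G := by ring

/-- decomposition into dyadic blocks -/
theorem d8_dyadic (F : ℕ → ℝ) (h0 : F 0 = 0) (N : ℕ) :
    ∑ k ∈ range (2 ^ N), F k = ∑ j ∈ range N, ∑ k ∈ Ico (2 ^ j) (2 ^ (j + 1)), F k := by
  induction N with
  | zero => simp [h0]
  | succ N ih =>
    rw [sum_range_succ, ← ih, range_eq_Ico, range_eq_Ico,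
      sum_Ico_consecutive _ (Nat.zero_le _) (Nat.pow_le_pow_right (by norm_num) (Nat.le_succ N))]

/-- the shift by `T + 1` costs at most a factor `e` -/
theorem d8_shift {L T : ℝ} {m : ℕ} (hT : 0 ≤ T) (hL0 : 0 < L)
    (hL : ((m : ℝ) + 1) * (T + 1) ≤ L) :
    (L + T + 1) ^ (m + 1) ≤ Real.exp 1 * L ^ (m + 1) := by
  have h1 : L + T + 1 = L * (1 + (T + 1) / L) := by field_simp; ring
  have h2 : (1 + (T + 1) / L) ^ (m + 1) ≤ Real.exp 1 := by
    have h3 : 1 + (T + 1) / L ≤ Real.exp ((T + 1) / L) := by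
      have := Real.add_one_le_exp ((T + 1) / L)
      linarith
    calc (1 + (T + 1) / L) ^ (m + 1) ≤ Real.exp ((T + 1) / L) ^ (m + 1) :=
          pow_le_pow_left₀ (by positivity) h3 _
      _ = Real.exp (((m + 1 : ℕ) : ℝ) * ((T + 1) / L)) := (Real.exp_nat_mul _ _).symm
      _ ≤ Real.exp 1 := by
          apply Real.exp_le_exp.2
          rw [mul_div_assoc', div_le_one hL0]
          push_cast
          exact hL
  rw [h1, mul_pow]
  calc L ^ (m + 1) * (1 + (T + 1) / L) ^ (m + 1) ≤ L ^ (m + 1) * Real.exp 1 :=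
        mul_le_mul_of_nonneg_left h2 (by positivity)
    _ = Real.exp 1 * L ^ (m + 1) := mul_comm _ _

theorem d8_high {w : ℝ} (hw : 0 ≤ w) (m : ℕ) {W : ℝ} (hW : W ≤ w) :
    w ^ (m + 1) * Real.exp (-w) / (m.factorial : ℝ) ≤
      ((m : ℝ) + 1) * 4 ^ (m + 1) * Real.exp (-(W / 4)) * Real.exp (-(w / 2)) := by
  have hfac : (0 : ℝ) < m.factorial := by exact_mod_cast m.factorial_pos
  have h1 := Real.pow_div_factorial_le_exp (x := w / 4) (by positivity) (m + 1)
  have h2 : w ^ (m + 1) / (m.factorial : ℝ) ≤ ((m : ℝ) + 1) * 4 ^ (m + 1) * Real.exp (w / 4) := by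
    rw [Nat.factorial_succ, div_pow, div_div, div_le_iff₀ (by positivity)] at h1
    rw [div_le_iff₀ hfac]
    push_cast at h1
    calc w ^ (m + 1) ≤ Real.exp (w / 4) * (4 ^ (m + 1) * (((m : ℝ) + 1) * m.factorial)) := h1
      _ = _ := by ring
  have h3 : Real.exp (w / 4) * Real.exp (-w) ≤ Real.exp (-(W / 4)) * Real.exp (-(w / 2)) := by
    rw [← Real.exp_add, ← Real.exp_add]
    apply Real.exp_le_exp.2
    linarith
  calc w ^ (m + 1) * Real.exp (-w) / (m.factorial : ℝ)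
      = w ^ (m + 1) / (m.factorial : ℝ) * Real.exp (-w) := by ring
    _ ≤ ((m : ℝ) + 1) * 4 ^ (m + 1) * Real.exp (w / 4) * Real.exp (-w) :=
        mul_le_mul_of_nonneg_right h2 (Real.exp_pos _).le
    _ = ((m : ℝ) + 1) * 4 ^ (m + 1) * (Real.exp (w / 4) * Real.exp (-w)) := by ring
    _ ≤ ((m : ℝ) + 1) * 4 ^ (m + 1) * (Real.exp (-(W / 4)) * Real.exp (-(w / 2))) :=
        mul_le_mul_of_nonneg_left h3 (by positivity)
    _ = _ := by ring

/-- low part is negligible -/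
theorem d8_E1 (c : ℝ) (hc : 0 < c) : ∀ᶠ z : ℕ in atTop,
    2 * (z : ℝ) ^ 65 * ((2 * (z : ℝ) ^ 65) ^ (2 * z ^ 6 + 1) / ((2 * z ^ 6).factorial : ℝ)) ≤
      c * ((z : ℝ) ^ 60) ^ (2 * z ^ 6 + 1) := by
  have h1 := (tendsto_pow_const_mul_const_pow_of_abs_lt_one 70 (r := 1 / 2)
    (by rw [abs_of_pos] <;> norm_num)).const_mul 4
  rw [mul_zero] at h1
  filter_upwards [h1.eventually (gt_mem_nhds hc), eventually_ge_atTop 6] with z hz1 hz6
  set m : ℕ := 2 * z ^ 6 with hm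
  have hZ : (6 : ℝ) ≤ z := by exact_mod_cast hz6
  have hZ0 : (0 : ℝ) < z := by linarith
  have hfac : (0 : ℝ) < m.factorial := by exact_mod_cast m.factorial_pos
  have hmR : (m : ℝ) = 2 * (z : ℝ) ^ 6 := by rw [hm]; push_cast; ring
  have hm0 : (0 : ℝ) < m := by rw [hmR]; positivity
  -- `m^m <= e^m m!`
  have h2 := Real.pow_div_factorial_le_exp (x := (m : ℝ)) hm0.le m
  rw [div_le_iff₀ hfac] at h2
  -- `(2 z^5)^m / m! <= (e/z)^m <= (1/2)^m`
  have h3 : (2 * (z : ℝ) ^ 5) ^ m / (m.factorial : ℝ) ≤ (1 / 2) ^ m := by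
    rw [div_le_iff₀ hfac]
    have h4 : (2 * (z : ℝ) ^ 5) ^ m = (m : ℝ) ^ m * (1 / z) ^ m := by
      rw [← mul_pow, hmR]; congr 1; field_simp
    rw [h4]
    have h5 : Real.exp m * (1 / (z : ℝ)) ^ m ≤ (1 / 2) ^ m := by
      have h6 : Real.exp m = Real.exp 1 ^ m := by
        rw [← Real.exp_nat_mul]; congr 1; ring
      rw [h6, ← mul_pow]
      apply pow_le_pow_left₀ (by positivity)
      have h7 := Real.exp_one_lt_d9
      rw [mul_one_div, div_le_div_iff₀ hZ0 two_pos]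
      linarith
    calc (m : ℝ) ^ m * (1 / z) ^ m ≤ (Real.exp m * m.factorial) * (1 / z) ^ m :=
          mul_le_mul_of_nonneg_right h2 (by positivity)
      _ = (Real.exp m * (1 / z) ^ m) * m.factorial := by ring
      _ ≤ (1 / 2) ^ m * m.factorial := mul_le_mul_of_nonneg_right h5 hfac.le
  have h8 : ((1 : ℝ) / 2) ^ m ≤ (1 / 2) ^ z := by
    apply pow_le_pow_of_le_one (by norm_num) (by norm_num)
    rw [hm]
    have : z ≤ z ^ 6 := Nat.le_self_pow (by norm_num) z
    omega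
  have h9 : (2 * (z : ℝ) ^ 65) ^ (m + 1) = ((z : ℝ) ^ 60) ^ (m + 1) * (2 * (z : ℝ) ^ 5) ^ (m + 1) := by
    rw [← mul_pow]; congr 1; ring
  calc 2 * (z : ℝ) ^ 65 * ((2 * (z : ℝ) ^ 65) ^ (m + 1) / (m.factorial : ℝ))
      = ((z : ℝ) ^ 60) ^ (m + 1) * (4 * (z : ℝ) ^ 70 *
          ((2 * (z : ℝ) ^ 5) ^ m / (m.factorial : ℝ))) := by
        rw [h9, pow_succ (2 * (z : ℝ) ^ 5) m]; ring
    _ ≤ ((z : ℝ) ^ 60) ^ (m + 1) * (4 * (z : ℝ) ^ 70 * (1 / 2) ^ z) := by
        apply mul_le_mul_of_nonneg_left _ (by positivity)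
        exact mul_le_mul_of_nonneg_left (h3.trans h8) (by positivity)
    _ ≤ ((z : ℝ) ^ 60) ^ (m + 1) * c := by
        apply mul_le_mul_of_nonneg_left _ (by positivity)
        have := hz1.le
        linarith
    _ = c * ((z : ℝ) ^ 60) ^ (m + 1) := mul_comm _ _

/-- high part is negligible -/
theorem d8_E2 (c : ℝ) (hc : 0 < c) : ∀ᶠ z : ℕ in atTop,
    Real.exp 1 ^ 2 * (((2 * z ^ 6 : ℕ) : ℝ) + 1) * 4 ^ (2 * z ^ 6 + 1) *
      Real.exp (-((z : ℝ) ^ 7 / 4)) * (4 * (z : ℝ) ^ 60) ≤ c := by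
  have h1 := (tendsto_pow_const_mul_const_pow_of_abs_lt_one 60 (r := Real.exp (-1))
    (by rw [abs_of_pos (Real.exp_pos _), Real.exp_lt_one_iff]; norm_num)).const_mul 32
  rw [mul_zero] at h1
  filter_upwards [h1.eventually (gt_mem_nhds hc), eventually_ge_atTop 40] with z hz1 hz40
  set m : ℕ := 2 * z ^ 6 with hm
  have hZ : (40 : ℝ) ≤ z := by exact_mod_cast hz40
  have hmR : (m : ℝ) = 2 * (z : ℝ) ^ 6 := by rw [hm]; push_cast; ring
  have he := Real.exp_one_gt_d9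
  have he' := Real.exp_one_lt_d9
  have h2 : ((m : ℝ) + 1) ≤ Real.exp (m + 1) := by
    have := Real.add_one_le_exp (m + 1 : ℝ)
    linarith
  have h3 : (4 : ℝ) ^ (m + 1) ≤ Real.exp (2 * (m + 1)) := by
    have h4 : (4 : ℝ) ≤ Real.exp 1 ^ 2 := by nlinarith
    calc (4 : ℝ) ^ (m + 1) ≤ (Real.exp 1 ^ 2) ^ (m + 1) := pow_le_pow_left₀ (by norm_num) h4 _
      _ = Real.exp (2 * (m + 1)) := by
          rw [← pow_mul, ← Real.exp_nat_mul]; congr 1; push_cast; ring
  have h5 : Real.exp 1 ^ 2 ≤ 8 := by nlinarith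
  have h6 : Real.exp ((m : ℝ) + 1) * Real.exp (2 * (m + 1)) * Real.exp (-((z : ℝ) ^ 7 / 4)) ≤
      Real.exp (-1) ^ z := by
    rw [← Real.exp_add, ← Real.exp_add, ← Real.exp_nat_mul]
    apply Real.exp_le_exp.2
    rw [hmR]
    have h7 : (0 : ℝ) < (z : ℝ) ^ 6 := by positivity
    have h8 : (z : ℝ) ^ 7 = z * (z : ℝ) ^ 6 := by ring
    have h9 : 40 * (z : ℝ) ^ 6 ≤ (z : ℝ) ^ 7 := by
      rw [h8]; exact mul_le_mul_of_nonneg_right hZ h7.le
    have h10 : (z : ℝ) ≤ (z : ℝ) ^ 6 := le_self_pow₀ (by linarith) (by norm_num)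
    have h11 : (1 : ℝ) ≤ (z : ℝ) ^ 6 := one_le_pow₀ (by linarith)
    linarith
  calc Real.exp 1 ^ 2 * ((m : ℝ) + 1) * 4 ^ (m + 1) *
      Real.exp (-((z : ℝ) ^ 7 / 4)) * (4 * (z : ℝ) ^ 60)
      ≤ 8 * Real.exp ((m : ℝ) + 1) * Real.exp (2 * (m + 1)) *
        Real.exp (-((z : ℝ) ^ 7 / 4)) * (4 * (z : ℝ) ^ 60) := by gcongr
    _ = 32 * (z : ℝ) ^ 60 * (Real.exp ((m : ℝ) + 1) * Real.exp (2 * (m + 1)) *
        Real.exp (-((z : ℝ) ^ 7 / 4))) := by ring
    _ ≤ 32 * (z : ℝ) ^ 60 * Real.exp (-1) ^ z :=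
        mul_le_mul_of_nonneg_left h6 (by positivity)
    _ ≤ c := by
        have := hz1.le
        linarith

theorem claimD8a : ClaimD8a := by
  intro c hc
  refine ⟨c / 200, by positivity, ?_⟩
  obtain ⟨z1, hz1⟩ := eventually_atTop.1 ((d8_E1 (c / 4) (by positivity)).and
    ((d8_E2 (c / 4) (by positivity)).and (eventually_ge_atTop 6)))
  refine ⟨z1, fun z hz B hB a ha hsum => ?_⟩
  obtain ⟨hE1, hE2, hz6⟩ := hz1 z hz
  by_contra hcon
  push Not at hcon
  set m : ℕ := 2 * z ^ 6 with hm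
  set T : ℝ := (z : ℝ) ^ 6 with hT
  set X : ℝ := (z : ℝ) ^ 60 with hX
  set ℓ : ℝ := Real.log 2 with hℓ
  have hZ : (6 : ℝ) ≤ z := by exact_mod_cast hz6
  have hmR : (m : ℝ) = 2 * (z : ℝ) ^ 6 := by rw [hm]; push_cast; ring
  have hX0 : 0 < X := by positivity
  have hT0 : 0 ≤ T := by positivity
  have hℓ1 : 0.6931471803 < ℓ := Real.log_two_gt_d9
  have hℓ2 : ℓ < 0.6931471808 := Real.log_two_lt_d9
  have hℓ0 : 0 < ℓ := by linarith
  have hη : eta z = 1 / X := rfl
  have hη0 : 0 < eta z := by rw [hη]; positivity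
  set h : ℝ := ℓ / X with hh
  have hh0 : 0 < h := by positivity
  have he := Real.exp_one_gt_d9
  have he' := Real.exp_one_lt_d9
  have hfac : (0 : ℝ) < m.factorial := by exact_mod_cast m.factorial_pos
  have hZ1 : (1 : ℝ) ≤ z := by linarith
  -- numerical conditions
  have hp6 : (1 : ℝ) ≤ (z : ℝ) ^ 6 := one_le_pow₀ hZ1
  have c1 : ((m : ℝ) + 1) * (T + 1) ≤ (z : ℝ) ^ 65 := by
    have e1 : ((m : ℝ) + 1) * (T + 1) ≤ (3 * (z : ℝ) ^ 6) * (2 * (z : ℝ) ^ 6) := by
      rw [hmR, hT]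
      apply mul_le_mul (by linarith) (by linarith) (by positivity) (by positivity)
    have e2 : (3 * (z : ℝ) ^ 6) * (2 * (z : ℝ) ^ 6) ≤ (z : ℝ) ^ 13 := by
      have : (z : ℝ) ^ 13 = z * (z : ℝ) ^ 12 := by ring
      rw [this]
      have h12 : (0 : ℝ) < (z : ℝ) ^ 12 := by positivity
      have h13 := mul_le_mul_of_nonneg_right hZ h12.le
      have h14 : (3 * (z : ℝ) ^ 6) * (2 * (z : ℝ) ^ 6) = 6 * (z : ℝ) ^ 12 := by ring
      rw [h14]
      exact h13
    have e3 : (z : ℝ) ^ 13 ≤ (z : ℝ) ^ 65 := pow_le_pow_right₀ hZ1 (by norm_num)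
    linarith
  have c3 : T + 1 ≤ (z : ℝ) ^ 65 := by
    have : (T + 1) ≤ ((m : ℝ) + 1) * (T + 1) := by
      apply le_mul_of_one_le_left (by positivity)
      have : (0 : ℝ) ≤ m := Nat.cast_nonneg m
      linarith
    linarith
  have c2 : h * ((m : ℝ) + 1) ≤ 1 := by
    rw [hh, div_mul_eq_mul_div, div_le_one hX0, hmR, hX]
    have e1 : (z : ℝ) ^ 7 ≤ (z : ℝ) ^ 60 := pow_le_pow_right₀ hZ1 (by norm_num)
    have e2 : (z : ℝ) ^ 7 = z * (z : ℝ) ^ 6 := by ring
    have e3 : 6 * (z : ℝ) ^ 6 ≤ z * (z : ℝ) ^ 6 :=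
      mul_le_mul_of_nonneg_right hZ (by positivity)
    have e4 : ℓ * (2 * (z : ℝ) ^ 6 + 1) ≤ 1 * (2 * (z : ℝ) ^ 6 + 1) :=
      mul_le_mul_of_nonneg_right (by linarith) (by positivity)
    linarith
  have c4 : h ≤ 1 := by
    have : h ≤ h * ((m : ℝ) + 1) := by
      apply le_mul_of_one_le_right hh0.le
      have : (0 : ℝ) ≤ m := Nat.cast_nonneg m
      linarith
    linarith
  have hL65 : (0 : ℝ) < (z : ℝ) ^ 65 := by positivity
  -- constants
  set A0 : ℝ := (2 * (z : ℝ) ^ 65) ^ (m + 1) / (m.factorial : ℝ) with hA0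
  set A1 : ℝ := 2 * Real.exp 1 ^ 2 * (c / 200) * B * X ^ m with hA1
  set A2 : ℝ := Real.exp 1 ^ 2 * X ^ (m + 1) * (((m : ℝ) + 1) * 4 ^ (m + 1) *
    Real.exp (-((z : ℝ) ^ 7 / 4))) with hA2
  have hA0n : 0 ≤ A0 := by positivity
  have hA1n : 0 ≤ A1 := by positivity
  have hA2n : 0 ≤ A2 := by positivity
  -- block bound
  have hblock : ∀ j : ℕ, ∑ k ∈ Ico (2 ^ j) (2 ^ (j + 1)), d8F a (eta z) T m k ≤
      (if ((j : ℝ) + 1) * ℓ < (z : ℝ) ^ 65 then A0 else 0) +
      A1 * ((h * ((j : ℝ) + 1)) ^ m * Real.exp (-(h * ((j : ℝ) + 1))) / (m.factorial : ℝ)) +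
      A2 * Real.exp (-(h / 2 * ((j : ℝ) + 1))) := by
    intro j
    set L : ℝ := ((j : ℝ) + 1) * ℓ with hL
    have hL0 : 0 < L := by positivity
    have hM0 : 0 ≤ A1 * ((h * ((j : ℝ) + 1)) ^ m * Real.exp (-(h * ((j : ℝ) + 1))) /
        (m.factorial : ℝ)) := by positivity
    have hH0 : 0 ≤ A2 * Real.exp (-(h / 2 * ((j : ℝ) + 1))) := by positivity
    have htriv : ∑ k ∈ Ico (2 ^ j) (2 ^ (j + 1)), a k ≤ 2 ^ j := by
      calc ∑ k ∈ Ico (2 ^ j) (2 ^ (j + 1)), a k ≤ ∑ k ∈ Ico (2 ^ j) (2 ^ (j + 1)), (1 : ℝ) :=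
            sum_le_sum fun k _ => (ha k).2
        _ = 2 ^ j := by
            rw [sum_const, Nat.card_Ico, nsmul_eq_mul, mul_one, pow_succ, mul_two,
              Nat.add_sub_cancel]
            push_cast; rfl
    have hexp : Real.exp (-(eta z * (j * ℓ))) ≤
        Real.exp 1 * Real.exp (-(h * ((j : ℝ) + 1))) := by
      rw [← Real.exp_add]
      apply Real.exp_le_exp.2
      have : eta z * (j * ℓ) = h * j := by rw [hη, hh]; field_simp
      rw [this]
      linarith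
    have hLX : L = X * (h * ((j : ℝ) + 1)) := by rw [hL, hh]; field_simp
    by_cases hlow : L < (z : ℝ) ^ 65
    · rw [if_pos hlow]
      have h1 := d8_block (fun k => (ha k).1) hη0.le hT0 m j htriv
      rw [div_self (by positivity), one_mul] at h1
      have h2 : Real.exp (-(eta z * (j * Real.log 2))) ≤ 1 := by
        rw [Real.exp_le_one_iff]
        have : 0 ≤ eta z * (j * Real.log 2) := by positivity
        linarith
      have h3 : (((j : ℝ) + 1) * Real.log 2 + T + 1) ^ (m + 1) ≤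
          (2 * (z : ℝ) ^ 65) ^ (m + 1) := by
        apply pow_le_pow_left₀ (by positivity)
        have : ((j : ℝ) + 1) * Real.log 2 = L := rfl
        linarith
      have h4 : Real.exp (-(eta z * (j * Real.log 2))) *
          (((j : ℝ) + 1) * Real.log 2 + T + 1) ^ (m + 1) / (m.factorial : ℝ) ≤ A0 := by
        rw [hA0]
        apply div_le_div_of_nonneg_right _ hfac.le
        calc Real.exp (-(eta z * (j * Real.log 2))) *
              (((j : ℝ) + 1) * Real.log 2 + T + 1) ^ (m + 1)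
            ≤ 1 * (2 * (z : ℝ) ^ 65) ^ (m + 1) := mul_le_mul h2 h3 (by positivity) zero_le_one
          _ = _ := one_mul _
      linarith
    · rw [if_neg hlow, zero_add]
      push Not at hlow
      have hshift := d8_shift (m := m) hT0 hL0 (c1.trans hlow)
      by_cases hmid : L ≤ (z : ℝ) ^ 67
      · -- middle
        have hlog : Real.log ((2 ^ (j + 1) : ℕ) : ℝ) = L := by
          push_cast
          rw [Real.log_pow]
          push_cast
          rfl
        have h1 := hcon (2 ^ (j + 1)) (by rw [hlog]; exact hlow) (by rw [hlog]; exact hmid)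
        rw [hlog] at h1
        have h2 : ∑ k ∈ Ico (2 ^ j) (2 ^ (j + 1)), a k ≤
            c / 200 * B * ((2 ^ (j + 1) : ℕ) : ℝ) / L := by
          refine le_trans (sum_le_sum_of_subset_of_nonneg ?_ fun k _ _ => (ha k).1) h1.le
          intro k hk
          rw [mem_Ico] at hk
          rw [mem_Icc]
          exact ⟨(Nat.one_le_two_pow).trans hk.1, hk.2.le⟩
        have h3 := d8_block (fun k => (ha k).1) hη0.le hT0 m j h2
        refine h3.trans ?_
        have h4 : c / 200 * B * ((2 ^ (j + 1) : ℕ) : ℝ) / L / 2 ^ j = 2 * (c / 200) * B / L := by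
          push_cast
          rw [pow_succ]
          field_simp
        rw [h4]
        have h5 : Real.exp (-(eta z * (j * Real.log 2))) *
            (((j : ℝ) + 1) * Real.log 2 + T + 1) ^ (m + 1) ≤
            (Real.exp 1 * Real.exp (-(h * ((j : ℝ) + 1)))) * (Real.exp 1 * L ^ (m + 1)) :=
          mul_le_mul hexp hshift (by positivity) (by positivity)
        have h6 : 2 * (c / 200) * B / L * (Real.exp (-(eta z * (j * Real.log 2))) *
            (((j : ℝ) + 1) * Real.log 2 + T + 1) ^ (m + 1) / (m.factorial : ℝ)) ≤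
            2 * (c / 200) * B / L * ((Real.exp 1 * Real.exp (-(h * ((j : ℝ) + 1)))) *
            (Real.exp 1 * L ^ (m + 1)) / (m.factorial : ℝ)) := by
          apply mul_le_mul_of_nonneg_left _ (by positivity)
          exact div_le_div_of_nonneg_right h5 hfac.le
        have h7 : 2 * (c / 200) * B / L * ((Real.exp 1 * Real.exp (-(h * ((j : ℝ) + 1)))) *
            (Real.exp 1 * L ^ (m + 1)) / (m.factorial : ℝ)) =
            A1 * ((h * ((j : ℝ) + 1)) ^ m * Real.exp (-(h * ((j : ℝ) + 1))) /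
            (m.factorial : ℝ)) := by
          have e1 : L ^ (m + 1) = L * (X ^ m * (h * ((j : ℝ) + 1)) ^ m) := by
            rw [← mul_pow, ← hLX, pow_succ]; ring
          rw [e1, hA1]
          field_simp
        linarith
      · -- high
        push Not at hmid
        have h3 := d8_block (fun k => (ha k).1) hη0.le hT0 m j htriv
        rw [div_self (by positivity), one_mul] at h3
        refine h3.trans ?_
        have h5 : Real.exp (-(eta z * (j * Real.log 2))) *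
            (((j : ℝ) + 1) * Real.log 2 + T + 1) ^ (m + 1) ≤
            (Real.exp 1 * Real.exp (-(h * ((j : ℝ) + 1)))) * (Real.exp 1 * L ^ (m + 1)) :=
          mul_le_mul hexp hshift (by positivity) (by positivity)
        have hw : (z : ℝ) ^ 7 ≤ h * ((j : ℝ) + 1) := by
          have e1 : h * ((j : ℝ) + 1) = L / X := by rw [hLX]; field_simp
          rw [e1, le_div_iff₀ hX0, hX]
          have : (z : ℝ) ^ 7 * (z : ℝ) ^ 60 = (z : ℝ) ^ 67 := by ring
          linarith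
        have h6 := d8_high (w := h * ((j : ℝ) + 1)) (by positivity) m hw
        have h7 : (Real.exp 1 * Real.exp (-(h * ((j : ℝ) + 1)))) * (Real.exp 1 * L ^ (m + 1)) /
            (m.factorial : ℝ) = Real.exp 1 ^ 2 * X ^ (m + 1) *
            ((h * ((j : ℝ) + 1)) ^ (m + 1) * Real.exp (-(h * ((j : ℝ) + 1))) /
            (m.factorial : ℝ)) := by
          rw [hLX, mul_pow]; ring
        have h8 : Real.exp (-(h * ((j : ℝ) + 1) / 2)) = Real.exp (-(h / 2 * ((j : ℝ) + 1))) := by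
          congr 1; ring
        rw [h8] at h6
        calc Real.exp (-(eta z * (j * Real.log 2))) *
              (((j : ℝ) + 1) * Real.log 2 + T + 1) ^ (m + 1) / (m.factorial : ℝ)
            ≤ (Real.exp 1 * Real.exp (-(h * ((j : ℝ) + 1)))) * (Real.exp 1 * L ^ (m + 1)) /
              (m.factorial : ℝ) := div_le_div_of_nonneg_right h5 hfac.le
          _ = Real.exp 1 ^ 2 * X ^ (m + 1) *
              ((h * ((j : ℝ) + 1)) ^ (m + 1) * Real.exp (-(h * ((j : ℝ) + 1))) /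
              (m.factorial : ℝ)) := h7
          _ ≤ Real.exp 1 ^ 2 * X ^ (m + 1) * (((m : ℝ) + 1) * 4 ^ (m + 1) *
              Real.exp (-((z : ℝ) ^ 7 / 4)) * Real.exp (-(h / 2 * ((j : ℝ) + 1)))) :=
              mul_le_mul_of_nonneg_left h6 (by positivity)
          _ = A2 * Real.exp (-(h / 2 * ((j : ℝ) + 1))) := by rw [hA2]; ring
          _ ≤ _ := by linarith
  -- sum over the blocks
  have htotal : ∀ N : ℕ, ∑ k ∈ range (2 ^ N), d8F a (eta z) T m k ≤
      2 * (z : ℝ) ^ 65 * A0 + A1 * (Real.exp (h * (m + 1)) / h) + A2 * (1 / (h / 2)) := by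
    intro N
    rw [d8_dyadic _ (by simp [d8F])]
    refine (sum_le_sum fun j _ => hblock j).trans ?_
    rw [sum_add_distrib, sum_add_distrib, ← mul_sum, ← mul_sum]
    have s1 : ∑ j ∈ range N, (if ((j : ℝ) + 1) * ℓ < (z : ℝ) ^ 65 then A0 else 0) ≤
        2 * (z : ℝ) ^ 65 * A0 := by
      rw [← sum_filter, sum_const, nsmul_eq_mul]
      apply mul_le_mul_of_nonneg_right _ hA0n
      have hsub : (range N).filter (fun j : ℕ => ((j : ℝ) + 1) * ℓ < (z : ℝ) ^ 65) ⊆
          range (2 * z ^ 65) := by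
        intro j hj
        rw [mem_filter] at hj
        rw [mem_range]
        have e1 : ((j : ℝ) + 1) * (1 / 2) ≤ ((j : ℝ) + 1) * ℓ :=
          mul_le_mul_of_nonneg_left (by linarith) (by positivity)
        have e2 : (j : ℝ) < 2 * (z : ℝ) ^ 65 := by linarith [hj.2]
        exact_mod_cast e2
      have := card_le_card hsub
      rw [card_range] at this
      calc ((((range N).filter (fun j : ℕ => ((j : ℝ) + 1) * ℓ < (z : ℝ) ^ 65)).card : ℕ) : ℝ)
          ≤ ((2 * z ^ 65 : ℕ) : ℝ) := by exact_mod_cast this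
        _ = 2 * (z : ℝ) ^ 65 := by push_cast; ring
    have s2 := mul_le_mul_of_nonneg_left (d8_gamma_sum h hh0 m N) hA1n
    have s3 := mul_le_mul_of_nonneg_left (d8_geom_sum (h / 2) (by positivity) N) hA2n
    linarith
  have hfinal : ∀ n : ℕ, ∑ k ∈ range n, d8F a (eta z) T m k ≤
      2 * (z : ℝ) ^ 65 * A0 + A1 * (Real.exp (h * (m + 1)) / h) + A2 * (1 / (h / 2)) := by
    intro n
    refine le_trans (sum_le_sum_of_subset_of_nonneg ?_ fun k _ _ =>
      d8F_nonneg (fun k => (ha k).1) hT0 m k) (htotal n)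
    exact range_subset_range.2 (Nat.lt_two_pow_self).le
  have htsum := Real.tsum_le_of_sum_range_le (fun k => d8F_nonneg (fun k => (ha k).1) hT0 m k)
    hfinal
  -- numerical comparison
  have n1 : 1 / h ≤ 1.45 * X := by
    rw [hh, one_div_div, div_le_iff₀ hℓ0]
    have e1 : X * 1 ≤ X * (1.45 * ℓ) := mul_le_mul_of_nonneg_left (by linarith) hX0.le
    linarith
  have n2 : A1 * (Real.exp (h * (m + 1)) / h) ≤ 0.3 * c * B * X ^ (m + 1) := by
    have e1 : Real.exp (h * (m + 1)) / h ≤ Real.exp 1 * (1.45 * X) := by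
      rw [div_eq_mul_one_div]
      exact mul_le_mul (Real.exp_le_exp.2 c2) n1 (by positivity) (by positivity)
    have e2 : Real.exp 1 ^ 3 ≤ 20.1 := by
      calc Real.exp 1 ^ 3 ≤ 2.7182818286 ^ 3 := pow_le_pow_left₀ (by positivity) he'.le _
        _ ≤ 20.1 := by norm_num
    calc A1 * (Real.exp (h * (m + 1)) / h) ≤ A1 * (Real.exp 1 * (1.45 * X)) :=
          mul_le_mul_of_nonneg_left e1 hA1n
      _ = Real.exp 1 ^ 3 * (2.9 / 200 * c * B * X ^ (m + 1)) := by rw [hA1, pow_succ X m]; ring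
      _ ≤ 20.1 * (2.9 / 200 * c * B * X ^ (m + 1)) :=
          mul_le_mul_of_nonneg_right e2 (by positivity)
      _ ≤ 0.3 * c * B * X ^ (m + 1) := by
          have e3 : 0 ≤ c * B * X ^ (m + 1) := by positivity
          have e4 : 20.1 * (2.9 / 200 * c * B * X ^ (m + 1)) =
            20.1 * 2.9 / 200 * (c * B * X ^ (m + 1)) := by ring
          have e5 : 0.3 * c * B * X ^ (m + 1) = 0.3 * (c * B * X ^ (m + 1)) := by ring
          rw [e4, e5]
          exact mul_le_mul_of_nonneg_right (by norm_num) e3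
  have n3 : A2 * (1 / (h / 2)) ≤ c / 4 * X ^ (m + 1) := by
    have e1 : 1 / (h / 2) ≤ 4 * (z : ℝ) ^ 60 := by
      have : 1 / (h / 2) = 2 * (1 / h) := by field_simp
      rw [this]
      have : X = (z : ℝ) ^ 60 := rfl
      linarith
    calc A2 * (1 / (h / 2)) ≤ A2 * (4 * (z : ℝ) ^ 60) := mul_le_mul_of_nonneg_left e1 hA2n
      _ = X ^ (m + 1) * (Real.exp 1 ^ 2 * ((m : ℝ) + 1) * 4 ^ (m + 1) *
          Real.exp (-((z : ℝ) ^ 7 / 4)) * (4 * (z : ℝ) ^ 60)) := by rw [hA2]; ring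
      _ ≤ X ^ (m + 1) * (c / 4) := mul_le_mul_of_nonneg_left hE2 (by positivity)
      _ = _ := mul_comm _ _
  have n4 : c * B * X ^ (m + 1) ≤ c / 4 * X ^ (m + 1) + 0.3 * c * B * X ^ (m + 1) +
      c / 4 * X ^ (m + 1) := by
    have h1 : c * B * X ^ (m + 1) ≤ ∑' k, d8F a (eta z) T m k := hsum
    linarith
  have n5 : c * X ^ (m + 1) ≤ c * B * X ^ (m + 1) := by
    have e1 : 0 ≤ c * X ^ (m + 1) := by positivity
    calc c * X ^ (m + 1) = 1 * (c * X ^ (m + 1)) := (one_mul _).symm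
      _ ≤ B * (c * X ^ (m + 1)) := mul_le_mul_of_nonneg_right hB e1
      _ = c * B * X ^ (m + 1) := by ring
  have n6 : 0 < c * X ^ (m + 1) := by positivity
  have n7 : c / 4 * X ^ (m + 1) = 1 / 4 * (c * X ^ (m + 1)) := by ring
  have n8 : 0.3 * c * B * X ^ (m + 1) = 0.3 * (c * B * X ^ (m + 1)) := by ring
  rw [n7, n8] at n4
  linarith

end D159
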