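import Pool.Agent.Work.MP_d159ed_nt.Bd.B05

/-!
# MP_d159ed_nt, F1 and F2
-/

set_option autoImplicit false

namespace D159

open Finset

theorem claimF1 : ClaimF1 := by
  intro h K hh hK
  have hsub : (Icc 1 K).filter (fun k => ∃ q ∈ k.primeFactors, h ∣ q - 1) ⊆
      (range K).biUnion (fun j => (Ioc 0 K).filter (fun k => (1 + (j + 1) * h) ∣ k)) := by
    intro k hk
    simp only [mem_filter, mem_Icc, Nat.mem_primeFactors, mem_biUnion, mem_range, mem_Ioc] at hk ⊢
    obtain ⟨⟨h1, h2⟩, q, ⟨hq, hqk, -⟩, j, hj⟩ := hk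
    have hq2 := hq.two_le
    have hqK : q ≤ K := (Nat.le_of_dvd (by omega) hqk).trans h2
    have hj0 : j ≠ 0 := by
      rintro rfl
      omega
    have hjh : j ≤ h * j := Nat.le_mul_of_pos_left _ hh
    refine ⟨j - 1, by omega, ⟨by omega, h2⟩, ?_⟩
    have : 1 + (j - 1 + 1) * h = q := by
      rw [Nat.sub_add_cancel (by omega), mul_comm]
      omega
    rw [this]
    exact hqk
  have hcard : ((Icc 1 K).filter (fun k => ∃ q ∈ k.primeFactors, h ∣ q - 1)).card ≤
      ∑ j ∈ range K, K / (1 + (j + 1) * h) := by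
    refine (card_le_card hsub).trans (card_biUnion_le.trans (le_of_eq ?_))
    refine sum_congr rfl fun j _ => ?_
    rw [Nat.Ioc_filter_dvd_card_eq_div]
  have hh0 : (0 : ℝ) < h := by exact_mod_cast hh
  have h1 : ((∑ j ∈ range K, K / (1 + (j + 1) * h) : ℕ) : ℝ) ≤
      ∑ j ∈ range K, ((K : ℝ) / h) * ((j : ℝ) + 1)⁻¹ := by
    push_cast
    refine sum_le_sum fun j _ => ?_
    refine Nat.cast_div_le.trans ?_
    push_cast
    rw [div_mul_eq_mul_div, div_eq_mul_inv, div_eq_mul_inv, mul_assoc]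
    apply mul_le_mul_of_nonneg_left _ (Nat.cast_nonneg K)
    rw [← mul_inv]
    apply inv_anti₀ (by positivity)
    nlinarith
  have h2 : ∑ j ∈ range K, ((K : ℝ) / h) * ((j : ℝ) + 1)⁻¹ = ((K : ℝ) / h) * (harmonic K : ℝ) := by
    rw [harmonic, ← mul_sum]
    push_cast
    rfl
  have h3 := harmonic_le_one_add_log K
  calc (((Icc 1 K).filter (fun k => ∃ q ∈ k.primeFactors, h ∣ q - 1)).card : ℝ)
      ≤ ((∑ j ∈ range K, K / (1 + (j + 1) * h) : ℕ) : ℝ) := by exact_mod_cast hcard
    _ ≤ ((K : ℝ) / h) * (harmonic K : ℝ) := by rw [← h2]; exact h1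
    _ ≤ ((K : ℝ) / h) * (1 + Real.log K) := mul_le_mul_of_nonneg_left h3 (by positivity)
    _ = (K : ℝ) * (1 + Real.log K) / h := by ring

theorem claimF2 : ClaimF2 := by
  intro M _ Y x d hY hd hv
  let v : ℕ → ℤ := fun i => ((x + (i : ℕ) * d).val : ℤ)
  have hvz : ∀ i : ℕ, ((v i : ℤ) : ZMod M) = x + (i : ℕ) * d := by
    intro i
    simp [v]
  have hb : ∀ i : ℕ, i < 5 → 1 ≤ v i ∧ v i ≤ Y := by
    intro i hi
    have h := hv ⟨i, hi⟩
    simp only [v]
    exact ⟨by exact_mod_cast h.1, by exact_mod_cast h.2⟩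
  have hMY : (2 : ℤ) * Y < M := by exact_mod_cast hY
  have hstep : ∀ i : ℕ, i < 5 → v i = v 0 + i * (v 1 - v 0) := by
    intro i
    induction i with
    | zero => intro _; simp
    | succ i ih =>
      intro hi
      have h1 := ih (by omega)
      have h2 : (M : ℤ) ∣ (v (i + 1) - v i) - (v 1 - v 0) := by
        rw [← ZMod.intCast_eq_intCast_iff_dvd_sub]
        push_cast
        rw [hvz, hvz, hvz, hvz]
        push_cast
        ring
      have b1 := hb i (by omega)
      have b2 := hb (i + 1) hi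
      have b3 := hb 0 (by norm_num)
      have b4 := hb 1 (by norm_num)
      have h3 : (v (i + 1) - v i) - (v 1 - v 0) = 0 := by
        apply Int.eq_zero_of_abs_lt_dvd h2
        rw [abs_lt]
        constructor <;> omega
      push_cast
      linarith
  have hD : v 1 - v 0 ≠ 0 := by
    intro h0
    have h1 : ((v 1 - v 0 : ℤ) : ZMod M) = d := by
      push_cast
      rw [hvz, hvz]
      push_cast
      ring
    rw [h0] at h1
    exact hd (by simpa using h1.symm)
  rcases lt_or_gt_of_ne hD with hneg | hpos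
  · refine ⟨(v 4).toNat, (-(v 1 - v 0)).toNat, by omega, ?_⟩
    intro i hi
    refine ⟨⟨4 - i, by omega⟩, ?_⟩
    have h4 := hstep 4 (by norm_num)
    have h5 := hstep (4 - i) (by omega)
    have b4 := hb 4 (by norm_num)
    have e1 : (((x + ((4 - i : ℕ) : ℕ) * d).val : ℕ) : ℤ) = v (4 - i) := rfl
    zify
    show ((v 4).toNat : ℤ) + i * ((-(v 1 - v 0)).toNat : ℤ) = v (4 - i)
    rw [Int.toNat_of_nonneg (by omega), Int.toNat_of_nonneg (by omega), h5, h4]
    push_cast [Nat.cast_sub (show i ≤ 4 by omega)]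
    ring
  · refine ⟨(v 0).toNat, (v 1 - v 0).toNat, by omega, ?_⟩
    intro i hi
    refine ⟨⟨i, hi⟩, ?_⟩
    have h5 := hstep i hi
    have b0 := hb 0 (by norm_num)
    zify
    show ((v 0).toNat : ℤ) + i * ((v 1 - v 0).toNat : ℤ) = v i
    rw [Int.toNat_of_nonneg (by omega), Int.toNat_of_nonneg (by omega), h5]

end D159
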