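import Mathlib
import Pool.Agent.Work.MP_d159ed_nt.Bd.B05

/-!
# MP_d159ed_nt, F3 part 1: elementary lemmas for the assembly
-/

set_option autoImplicit false

namespace D159

open Finset
open scoped BigOperators

/-- the level as a function of K -/
noncomputable def Rlev (K : ℕ) : ℕ := ⌊(K : ℝ) ^ ((1 : ℝ) / 640)⌋₊

theorem Rlev_pow_le (K : ℕ) : Rlev K ^ 640 ≤ K := by
  have h1 : (Rlev K : ℝ) ≤ (K : ℝ) ^ ((1 : ℝ) / 640) := Nat.floor_le (by positivity)
  have h2 : ((Rlev K : ℝ)) ^ 640 ≤ ((K : ℝ) ^ ((1 : ℝ) / 640)) ^ 640 := by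
    gcongr
  have h3 : ((K : ℝ) ^ ((1 : ℝ) / 640)) ^ 640 = K := by
    rw [← Real.rpow_natCast, ← Real.rpow_mul (by positivity)]
    norm_num
  rw [h3] at h2
  exact_mod_cast h2

/-- lower bounds for the level -/
theorem Rlev_lower {K z : ℕ} (hz : 2 ≤ z) (hK : (z : ℝ) ^ 65 ≤ Real.log K) :
    z ≤ Rlev K ∧ Real.log K / 1280 ≤ Real.log (Rlev K) := by
  have hz' : (2 : ℝ) ≤ z := by exact_mod_cast hz
  have hz65 : (2 : ℝ) ^ 64 * z ≤ (z : ℝ) ^ 65 := by
    have : (2 : ℝ) ^ 64 ≤ (z : ℝ) ^ 64 := by gcongr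
    calc (2 : ℝ) ^ 64 * z ≤ (z : ℝ) ^ 64 * z := by gcongr
      _ = (z : ℝ) ^ 65 := by ring
  have hlogK : (2 : ℝ) ^ 64 * z ≤ Real.log K := hz65.trans hK
  have hKpos : 0 < (K : ℝ) := by
    rcases Nat.eq_zero_or_pos K with h | h
    · subst h
      simp at hlogK
      nlinarith
    · exact_mod_cast h
  have hrp : (K : ℝ) ^ ((1 : ℝ) / 640) = Real.exp (Real.log K / 640) := by
    rw [Real.rpow_def_of_pos hKpos]
    congr 1
    ring
  have hbig : Real.log K / 640 + 1 ≤ (K : ℝ) ^ ((1 : ℝ) / 640) := by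
    rw [hrp]; exact Real.add_one_le_exp _
  have hxz : (z : ℝ) + 1 ≤ (K : ℝ) ^ ((1 : ℝ) / 640) := by
    have : (z : ℝ) ≤ Real.log K / 640 := by
      rw [le_div_iff₀ (by norm_num)]
      nlinarith
    linarith
  have hfl : (K : ℝ) ^ ((1 : ℝ) / 640) - 1 ≤ Rlev K := by
    have := Nat.lt_floor_add_one ((K : ℝ) ^ ((1 : ℝ) / 640))
    unfold Rlev
    linarith
  constructor
  · have : (z : ℝ) ≤ Rlev K := by linarith
    exact_mod_cast this
  · have hhalf : (K : ℝ) ^ ((1 : ℝ) / 640) / 2 ≤ Rlev K := by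
      have : (2 : ℝ) ≤ (K : ℝ) ^ ((1 : ℝ) / 640) := by linarith
      linarith
    have hpos : 0 < (K : ℝ) ^ ((1 : ℝ) / 640) / 2 := by positivity
    have h1 := Real.log_le_log hpos hhalf
    rw [Real.log_div (by positivity) (by norm_num), hrp, Real.log_exp] at h1
    have hl2 : Real.log 2 ≤ 1 := by
      have := Real.log_two_lt_d9
      linarith
    nlinarith

/-- the functions f_k -/
noncomputable def fk (h R k : ℕ) (S : Finset ℕ) {M : ℕ} (v : ZMod M) : ℝ :=
  if v.val ∈ S ∧ (1 + h * k * v.val).Prime ∧ R < k then Gs h R else 0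

theorem fk_nonneg (hC1 : ClaimC1) {h R : ℕ} (hh : 1 ≤ h) (hR : 1 ≤ R) (k : ℕ) (S : Finset ℕ)
    {M : ℕ} (v : ZMod M) : 0 ≤ fk h R k S v := by
  unfold fk
  split_ifs
  · have := (hC1 h R hh hR).2.2.2.1
    linarith
  · exact le_rfl

theorem fk_le_nuk (hC1 : ClaimC1) {h R : ℕ} (hh : 1 ≤ h) (hR : 1 ≤ R) (k : ℕ) (S : Finset ℕ)
    {Y : ℕ} (hS : ∀ w ∈ S, 1 ≤ w ∧ w ≤ Y) {M : ℕ} (v : ZMod M) :
    fk h R k S v ≤ nuk h R Y k v := by
  obtain ⟨-, -, -, hG, -, hprime⟩ := hC1 h R hh hR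
  have hnn : 0 ≤ nuk h R Y k v := by
    unfold nuk
    split_ifs
    · have : 0 ≤ Gs h R := by linarith
      positivity
    · norm_num
  unfold fk
  split_ifs with hcond
  · obtain ⟨hvS, hp, hRk⟩ := hcond
    obtain ⟨h1, h2⟩ := hS _ hvS
    unfold nuk
    rw [if_pos ⟨h1, h2⟩]
    have hlt : R < 1 + h * k * v.val := by
      have : k ≤ h * k * v.val := by
        calc k = 1 * k * 1 := by ring
          _ ≤ h * k * v.val := by gcongr
      omega
    rw [hprime _ hp hlt]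
    simp
  · exact hnn

theorem sum_fk (h R K : ℕ) (S : Finset ℕ) (M : ℕ) [NeZero M] (hS : ∀ w ∈ S, w < M) :
    ∑ k ∈ Icc 1 K, (𝔼 v : ZMod M, fk h R k S v) =
      Gs h R / M * ∑ w ∈ S, (((Icc 1 K).filter
        (fun k => (1 + h * k * w).Prime ∧ R < k)).card : ℝ) := by
  classical
  have h1 : ∀ k : ℕ, (𝔼 v : ZMod M, fk h R k S v) =
      (1 / (M : ℝ)) * ∑ w ∈ S, if (1 + h * k * w).Prime ∧ R < k then Gs h R else 0 := by
    intro k
    rw [Fintype.expect_eq_sum_div_card, ZMod.card]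
    rw [div_eq_mul_inv, mul_comm, one_div]
    congr 1
    have hsub : ∑ v : ZMod M, fk h R k S v =
        ∑ v ∈ (univ : Finset (ZMod M)).filter (fun v => v.val ∈ S), fk h R k S v := by
      rw [Finset.sum_filter_of_ne]
      intro x _ hx
      by_contra hne
      apply hx
      unfold fk
      rw [if_neg]
      tauto
    rw [hsub]
    refine Finset.sum_bij' (fun v _ => v.val) (fun w _ => (w : ZMod M)) ?_ ?_ ?_ ?_ ?_
    · intro a ha; simpa using ha
    · intro a ha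
      simp only [mem_filter, mem_univ, true_and]
      rw [ZMod.val_natCast_of_lt (hS a ha)]
      exact ha
    · intro a ha; simp
    · intro a ha
      exact ZMod.val_natCast_of_lt (hS a ha)
    · intro a ha
      have : a.val ∈ S := by simpa using ha
      unfold fk
      simp [this]
  simp_rw [h1]
  rw [← Finset.mul_sum, Finset.sum_comm]
  have h2 : ∀ w ∈ S, (∑ k ∈ Icc 1 K, if (1 + h * k * w).Prime ∧ R < k then Gs h R else 0) =
      Gs h R * (((Icc 1 K).filter (fun k => (1 + h * k * w).Prime ∧ R < k)).card : ℝ) := by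
    intro w _
    rw [← Finset.sum_filter, Finset.sum_const, nsmul_eq_mul, mul_comm]
  rw [Finset.sum_congr rfl h2, ← Finset.mul_sum]
  ring

theorem sum_fk_lower (h R K : ℕ) (S : Finset ℕ) (M : ℕ) [NeZero M] (hS : ∀ w ∈ S, w < M)
    (hG : 0 ≤ Gs h R) :
    Gs h R / M * ((∑ w ∈ S, (((Icc 1 K).filter (fun k => (1 + k * (h * w)).Prime)).card : ℝ)) -
        (S.card : ℝ) * R) ≤
      ∑ k ∈ Icc 1 K, (𝔼 v : ZMod M, fk h R k S v) := by
  rw [sum_fk h R K S M hS]
  have hMpos : 0 ≤ Gs h R / M := by positivity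
  apply mul_le_mul_of_nonneg_left _ hMpos
  rw [sub_le_iff_le_add, ← nsmul_eq_mul, ← Finset.sum_const, ← Finset.sum_add_distrib]
  apply Finset.sum_le_sum
  intro w _
  have hsub : (Icc 1 K).filter (fun k => (1 + k * (h * w)).Prime) ⊆
      (Icc 1 K).filter (fun k => (1 + h * k * w).Prime ∧ R < k) ∪ Icc 1 R := by
    intro k hk
    simp only [mem_filter, mem_union, mem_Icc] at hk ⊢
    by_cases hkR : R < k
    · left
      refine ⟨hk.1, ?_, hkR⟩
      have : 1 + h * k * w = 1 + k * (h * w) := by ring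
      rw [this]; exact hk.2
    · right; omega
  have := (Finset.card_le_card hsub).trans (Finset.card_union_le _ _)
  rw [Nat.card_Icc] at this
  have h2 : ((Icc 1 K).filter (fun k => (1 + k * (h * w)).Prime)).card ≤
      ((Icc 1 K).filter (fun k => (1 + h * k * w).Prime ∧ R < k)).card + R := by omega
  exact_mod_cast h2

end D159
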