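import Mathlib
import Pool.Agent.Work.MP_d159ed_nt.F3a

/-!
# MP_d159ed_nt, F3 part 2: choice of k, removal of trivial progressions
-/

set_option autoImplicit false

namespace D159

open Finset
open scoped BigOperators

theorem good_k (K : ℕ) (hK : 1 ≤ K) (a b : ℕ → ℝ) (δ : ℝ) (hδ : 0 < δ)
    (ha : ∀ k, 0 ≤ a k) (hab : ∀ k, a k ≤ b k) (hsum : δ * K ≤ ∑ k ∈ Icc 1 K, a k)
    (hsq : ∑ k ∈ Icc 1 K, b k ^ 2 ≤ 4 * K) (Bad : Finset ℕ) (hBad : Bad ⊆ Icc 1 K)
    (hcard : (Bad.card : ℝ) ≤ δ ^ 2 / 64 * K) :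
    ∃ k ∈ Icc 1 K, k ∉ Bad ∧ δ / 2 ≤ a k := by
  classical
  by_contra hcon
  push Not at hcon
  have hKpos : (0 : ℝ) < K := by exact_mod_cast hK
  have h1 : ∑ k ∈ Icc 1 K, a k = ∑ k ∈ Bad, a k + ∑ k ∈ Icc 1 K \ Bad, a k := by
    rw [add_comm, Finset.sum_sdiff hBad]
  have h2 : ∑ k ∈ Icc 1 K \ Bad, a k ≤ δ / 2 * K := by
    calc ∑ k ∈ Icc 1 K \ Bad, a k ≤ ∑ _k ∈ Icc 1 K \ Bad, δ / 2 := by
          apply Finset.sum_le_sum
          intro k hk
          rw [mem_sdiff] at hk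
          exact (hcon k hk.1 hk.2).le
      _ = ((Icc 1 K \ Bad).card : ℝ) * (δ / 2) := by rw [Finset.sum_const, nsmul_eq_mul]
      _ ≤ (K : ℝ) * (δ / 2) := by
          gcongr
          have := Finset.card_le_card (Finset.sdiff_subset (s := Icc 1 K) (t := Bad))
          simpa using this
      _ = δ / 2 * K := by ring
  have h3 : (∑ k ∈ Bad, a k) ^ 2 ≤ (δ / 4 * K) ^ 2 := by
    calc (∑ k ∈ Bad, a k) ^ 2 ≤ (Bad.card : ℝ) * ∑ k ∈ Bad, a k ^ 2 :=
          sq_sum_le_card_mul_sum_sq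
      _ ≤ (δ ^ 2 / 64 * K) * (4 * K) := by
          apply mul_le_mul hcard _ (Finset.sum_nonneg (fun _ _ => sq_nonneg _)) (by positivity)
          calc ∑ k ∈ Bad, a k ^ 2 ≤ ∑ k ∈ Icc 1 K, a k ^ 2 :=
                Finset.sum_le_sum_of_subset_of_nonneg hBad (fun _ _ _ => sq_nonneg _)
            _ ≤ ∑ k ∈ Icc 1 K, b k ^ 2 := by
                apply Finset.sum_le_sum
                intro k _
                have := ha k
                have := hab k
                gcongr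
            _ ≤ 4 * K := hsq
      _ = (δ / 4 * K) ^ 2 := by ring
  have h4 : ∑ k ∈ Bad, a k ≤ δ / 4 * K :=
    le_of_sq_le_sq h3 (by positivity)
  have : δ * K ≤ δ / 4 * K + δ / 2 * K := by linarith
  nlinarith

/-- if the five-fold average is large then there is a nontrivial progression -/
theorem exists_nontrivial (M : ℕ) [NeZero M] (f : ZMod M → ℝ) (G c : ℝ) (hf0 : ∀ x, 0 ≤ f x)
    (hfG : ∀ x, f x ≤ G) (hc : c ≤ 𝔼 x, 𝔼 d, ∏ i : Fin 5, f (x + (i : ℕ) * d))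
    (hG : G ^ 5 / M < c) :
    ∃ x d : ZMod M, d ≠ 0 ∧ ∀ i : Fin 5, f (x + (i : ℕ) * d) ≠ 0 := by
  classical
  by_contra hcon
  push Not at hcon
  have hzero : ∀ x d : ZMod M, d ≠ 0 → ∏ i : Fin 5, f (x + (i : ℕ) * d) = 0 := by
    intro x d hd
    obtain ⟨i, hi⟩ := hcon x d hd
    exact Finset.prod_eq_zero (mem_univ i) hi
  have hinner : ∀ x : ZMod M, (𝔼 d, ∏ i : Fin 5, f (x + (i : ℕ) * d)) ≤ G ^ 5 / M := by
    intro x
    rw [Fintype.expect_eq_sum_div_card, ZMod.card]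
    have : ∑ d : ZMod M, ∏ i : Fin 5, f (x + (i : ℕ) * d) = ∏ i : Fin 5, f (x + (i : ℕ) * 0) := by
      rw [Finset.sum_eq_single (0 : ZMod M)]
      · intro d _ hd
        exact hzero x d hd
      · intro h; exact absurd (mem_univ _) h
    rw [this]
    have hM : (0 : ℝ) < M := by exact_mod_cast Nat.pos_of_ne_zero (NeZero.ne M)
    gcongr
    simp only [mul_zero, add_zero, prod_const, card_univ, Fintype.card_fin]
    exact pow_le_pow_left₀ (hf0 x) (hfG x) 5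
  have : (𝔼 x, 𝔼 d, ∏ i : Fin 5, f (x + (i : ℕ) * d)) ≤ G ^ 5 / M := by
    calc (𝔼 x, 𝔼 d, ∏ i : Fin 5, f (x + (i : ℕ) * d)) ≤ 𝔼 _x : ZMod M, G ^ 5 / M := by
          apply Finset.expect_le_expect
          intro x _
          exact hinner x
      _ = G ^ 5 / M := by rw [Fintype.expect_const]
  linarith

/-- Chebyshev inequality for a finite sum -/
theorem card_bad_le (K : ℕ) (X : ℕ → ℝ) (ε η : ℝ) (hε : 0 < ε)
    (h : (∑ k ∈ Icc 1 K, (X k - 1) ^ 2) / (K : ℝ) ≤ η) (hK : 1 ≤ K) :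
    (((Icc 1 K).filter (fun k => ε < |X k - 1|)).card : ℝ) ≤ η / ε ^ 2 * K := by
  have hKpos : (0 : ℝ) < K := by exact_mod_cast hK
  rw [div_le_iff₀ hKpos] at h
  have h1 : (((Icc 1 K).filter (fun k => ε < |X k - 1|)).card : ℝ) * ε ^ 2 ≤ η * K := by
    calc (((Icc 1 K).filter (fun k => ε < |X k - 1|)).card : ℝ) * ε ^ 2
        = ∑ _k ∈ (Icc 1 K).filter (fun k => ε < |X k - 1|), ε ^ 2 := by
          rw [Finset.sum_const, nsmul_eq_mul]
      _ ≤ ∑ k ∈ (Icc 1 K).filter (fun k => ε < |X k - 1|), (X k - 1) ^ 2 := by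
          apply Finset.sum_le_sum
          intro k hk
          rw [mem_filter] at hk
          rw [← sq_abs (X k - 1)]
          have := hk.2
          gcongr
      _ ≤ ∑ k ∈ Icc 1 K, (X k - 1) ^ 2 :=
          Finset.sum_le_sum_of_subset_of_nonneg (Finset.filter_subset _ _)
            (fun _ _ _ => sq_nonneg _)
      _ ≤ η * K := h
  rw [div_mul_eq_mul_div, le_div_iff₀ (by positivity)]
  exact h1

end D159
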