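import Mathlib
import Pool.Agent.Work.MP_d159ed_nt.F3b

/-!
# MP_d159ed_nt, F3: main assembly
-/

set_option autoImplicit false
set_option linter.constructorNameAsVariable false

namespace D159

open Finset
open scoped BigOperators

/-- the average of the product over A -/
noncomputable def XA (h R Y M : ℕ) [NeZero M] (A : Finset (Fin 5 × (Fin 5 → Bool))) (k : ℕ) : ℝ :=
  𝔼 x : Fin 5 → Bool → ZMod M, ∏ a ∈ A, nuk h R Y k (psi a.1 (pt x a.2))

theorem F3_core (hRS : RelSzem5) (hC1 : ClaimC1) (hC8 : ClaimC8) (hF1 : ClaimF1) (hF2 : ClaimF2)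
    (δ : ℝ) (hδ : 0 < δ) :
    ∃ ε : ℝ, 0 < ε ∧ ∃ c : ℝ, 0 < c ∧ ∃ M0 : ℕ, ∀ (M : ℕ) [NeZero M], M.Prime → M0 ≤ M → 5 ≤ M →
      ∀ (h R Y K : ℕ) (η : ℝ) (S : Finset ℕ), 1 ≤ h → 1 ≤ R → 1 ≤ K → 2 * Y < M →
        (∀ w ∈ S, 1 ≤ w ∧ w ≤ Y) →
        (∀ A ⊆ Idx, (∑ k ∈ Icc 1 K, (XA h R Y M A k - 1) ^ 2) / (K : ℝ) ≤ η) →
        η ≤ 1 → (Idx.powerset.card : ℝ) * (η / ε ^ 2) ≤ δ ^ 2 / 128 →
        (1 + Real.log K) / h ≤ δ ^ 2 / 128 →
        Gs h R ^ 5 / M < c →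
        δ * K ≤ ∑ k ∈ Icc 1 K, (𝔼 v : ZMod M, fk h R k S v) →
        ∃ k : ℕ, 1 ≤ k ∧ (∀ q : ℕ, q.Prime → q ∣ k → ¬ h ∣ q - 1) ∧
          ∃ w e : ℕ, 0 < e ∧ ∀ i : ℕ, i < 5 →
            w + i * e ∈ S ∧ (1 + h * k * (w + i * e)).Prime := by
  classical
  obtain ⟨ε, hε, c, hc, M0, hRS⟩ := hRS (δ / 2) (by positivity)
  refine ⟨ε, hε, c, hc, M0, ?_⟩
  intro M _ hMp hM0 hM5 h R Y K η S hh hR hK hYM hS hSM hη hcnt hlog hG hsum
  have hKpos : (0 : ℝ) < K := by exact_mod_cast hK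
  have hf0 : ∀ (k : ℕ) (v : ZMod M), 0 ≤ fk h R k S v := fun k v => fk_nonneg hC1 hh hR k S v
  have hfn : ∀ (k : ℕ) (v : ZMod M), fk h R k S v ≤ nuk h R Y k v :=
    fun k v => fk_le_nuk hC1 hh hR k S hS v
  have hGpos : 0 ≤ Gs h R := by
    have := (hC1 h R hh hR).2.2.2.1
    linarith
  -- the mean of nuk
  let a0 : Fin 5 × (Fin 5 → Bool) := (0, fun _ => false)
  have ha0 : a0 ∈ Idx := by simp [Idx, a0]
  have hmean : ∀ k, XA h R Y M {a0} k = 𝔼 v : ZMod M, nuk h R Y k v := by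
    intro k
    unfold XA
    simp only [prod_singleton]
    exact (hC8 M hMp hM5).2.2 a0 ha0 (fun v => nuk h R Y k v)
  have hη0 : 0 ≤ η := le_trans (by positivity) (hSM {a0} (by simpa using ha0))
  have hsq : ∑ k ∈ Icc 1 K, (𝔼 v : ZMod M, nuk h R Y k v) ^ 2 ≤ 4 * K := by
    have h1 := hSM {a0} (by simpa using ha0)
    rw [div_le_iff₀ hKpos] at h1
    calc ∑ k ∈ Icc 1 K, (𝔼 v : ZMod M, nuk h R Y k v) ^ 2
        ≤ ∑ k ∈ Icc 1 K, (2 * (XA h R Y M {a0} k - 1) ^ 2 + 2) := by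
          apply Finset.sum_le_sum
          intro k _
          rw [← hmean k]
          nlinarith [sq_nonneg (XA h R Y M {a0} k - 2)]
      _ = 2 * ∑ k ∈ Icc 1 K, (XA h R Y M {a0} k - 1) ^ 2 + 2 * K := by
          rw [Finset.sum_add_distrib, ← Finset.mul_sum]
          simp
          ring
      _ ≤ 2 * (η * K) + 2 * K := by linarith
      _ ≤ 4 * K := by nlinarith
  set Bad : Finset ℕ := (Idx.powerset.biUnion
      (fun A => (Icc 1 K).filter (fun k => ε < |XA h R Y M A k - 1|))) ∪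
      (Icc 1 K).filter (fun k => ∃ q ∈ k.primeFactors, h ∣ q - 1) with hBad
  have hBadsub : Bad ⊆ Icc 1 K := by
    intro k hk
    rw [hBad, mem_union, mem_biUnion] at hk
    rcases hk with ⟨A, _, hk⟩ | hk
    · exact (mem_filter.mp hk).1
    · exact (mem_filter.mp hk).1
  have hBadcard : (Bad.card : ℝ) ≤ δ ^ 2 / 64 * K := by
    have h1 : Bad.card ≤ (∑ A ∈ Idx.powerset,
        ((Icc 1 K).filter (fun k => ε < |XA h R Y M A k - 1|)).card) +
        ((Icc 1 K).filter (fun k => ∃ q ∈ k.primeFactors, h ∣ q - 1)).card := by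
      refine (Finset.card_union_le _ _).trans ?_
      gcongr
      exact Finset.card_biUnion_le
    have h2 : (Bad.card : ℝ) ≤ (∑ A ∈ Idx.powerset,
        (((Icc 1 K).filter (fun k => ε < |XA h R Y M A k - 1|)).card : ℝ)) +
        (((Icc 1 K).filter (fun k => ∃ q ∈ k.primeFactors, h ∣ q - 1)).card : ℝ) := by
      exact_mod_cast h1
    have h3 : (∑ A ∈ Idx.powerset,
        (((Icc 1 K).filter (fun k => ε < |XA h R Y M A k - 1|)).card : ℝ)) ≤
        (Idx.powerset.card : ℝ) * (η / ε ^ 2 * K) := by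
      calc (∑ A ∈ Idx.powerset,
            (((Icc 1 K).filter (fun k => ε < |XA h R Y M A k - 1|)).card : ℝ))
          ≤ ∑ _A ∈ Idx.powerset, (η / ε ^ 2 * K) := by
            apply Finset.sum_le_sum
            intro A hA
            exact card_bad_le K (XA h R Y M A) ε η hε (hSM A (mem_powerset.mp hA)) hK
        _ = (Idx.powerset.card : ℝ) * (η / ε ^ 2 * K) := by
            rw [Finset.sum_const, nsmul_eq_mul]
    have h4 := hF1 h K hh hK
    have h5 : (K : ℝ) * (1 + Real.log K) / h = (1 + Real.log K) / h * K := by ring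
    rw [h5] at h4
    have h6 : (Idx.powerset.card : ℝ) * (η / ε ^ 2 * K) ≤ δ ^ 2 / 128 * K := by
      calc (Idx.powerset.card : ℝ) * (η / ε ^ 2 * K)
          = (Idx.powerset.card : ℝ) * (η / ε ^ 2) * K := by ring
        _ ≤ δ ^ 2 / 128 * K := by gcongr
    have h7 : (1 + Real.log K) / h * K ≤ δ ^ 2 / 128 * K := by gcongr
    linarith
  obtain ⟨k, hkK, hkBad, hka⟩ := good_k K hK (fun k => 𝔼 v : ZMod M, fk h R k S v)
    (fun k => 𝔼 v : ZMod M, nuk h R Y k v) δ hδ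
    (fun k => Finset.expect_nonneg (fun v _ => hf0 k v))
    (fun k => Finset.expect_le_expect (fun v _ => hfn k v)) hsum hsq Bad hBadsub hBadcard

  have hLF : LF M (fun v => nuk h R Y k v) ε := by
    intro A hA
    by_contra hcon
    push Not at hcon
    apply hkBad
    rw [hBad, mem_union, mem_biUnion]
    left
    refine ⟨A, mem_powerset.mpr hA, ?_⟩
    rw [mem_filter]
    exact ⟨hkK, hcon⟩
  have hfin := hRS M hMp hM0 (fun v => nuk h R Y k v) (fun v => fk h R k S v)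
    (fun v => hf0 k v) (fun v => hfn k v) hLF hka
  obtain ⟨x, d, hd, hxd⟩ := exists_nontrivial M (fun v => fk h R k S v) (Gs h R) c
    (fun v => hf0 k v) (fun v => by unfold fk; split_ifs <;> linarith) hfin hG
  have hprop : ∀ i : Fin 5, (x + (i : ℕ) * d).val ∈ S ∧
      (1 + h * k * (x + (i : ℕ) * d).val).Prime := by
    intro i
    have := hxd i
    simp only [fk] at this
    by_contra hcon
    apply this
    exact if_neg (fun hh' => hcon ⟨hh'.1, hh'.2.1⟩)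
  refine ⟨k, (mem_Icc.mp hkK).1, ?_, ?_⟩
  · intro q hq hqk hhq
    apply hkBad
    rw [hBad, mem_union]
    right
    rw [mem_filter]
    refine ⟨hkK, q, ?_, hhq⟩
    rw [Nat.mem_primeFactors]
    exact ⟨hq, hqk, Nat.one_le_iff_ne_zero.mp (mem_Icc.mp hkK).1⟩
  · obtain ⟨w, e, he, hwe⟩ := hF2 M Y x d hYM hd (fun i => hS _ (hprop i).1)
    refine ⟨w, e, he, ?_⟩
    intro i hi
    obtain ⟨j, hj⟩ := hwe i hi
    rw [hj]
    exact hprop j

theorem log_le_sixteenth (K : ℕ) (c : ℝ) (hc : 0 < c) (hK : 16 / c ≤ Real.log K) (R : ℕ)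
    (hR : R ^ 640 ≤ K) : (R : ℝ) ≤ c / 2 * K / Real.log K := by
  have hlogpos : 0 < Real.log K := lt_of_lt_of_le (by positivity) hK
  have hKpos : (0 : ℝ) < K := by
    rcases Nat.eq_zero_or_pos K with h | h
    · subst h; simp at hlogpos
    · exact_mod_cast h
  have hR2 : (R : ℝ) ^ 2 ≤ K := by
    rcases Nat.eq_zero_or_pos R with h | h
    · subst h; simp
    · have : R ^ 2 ≤ R ^ 640 := Nat.pow_le_pow_right h (by norm_num)
      exact_mod_cast this.trans hR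
  have hRs : (R : ℝ) ≤ Real.sqrt K := Real.le_sqrt_of_sq_le hR2
  have hsq : Real.sqrt K = Real.exp (Real.log K / 2) := by
    rw [Real.sqrt_eq_rpow, Real.rpow_def_of_pos hKpos]
    congr 1
    ring
  have hexp : (Real.log K) ^ 2 / 8 ≤ Real.exp (Real.log K / 2) := by
    have := Real.quadratic_le_exp_of_nonneg (x := Real.log K / 2) (by positivity)
    nlinarith
  have h1 : Real.log K ≤ c / 2 * Real.sqrt K := by
    rw [hsq]
    have h2 : c / 2 * ((Real.log K) ^ 2 / 8) ≤ c / 2 * Real.exp (Real.log K / 2) := by gcongr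
    have h3 : 16 ≤ c * Real.log K := by
      rw [div_le_iff₀ hc] at hK
      linarith
    nlinarith
  rw [le_div_iff₀ hlogpos]
  have hss : Real.sqrt K * Real.sqrt K = K := Real.mul_self_sqrt hKpos.le
  calc (R : ℝ) * Real.log K ≤ Real.sqrt K * (c / 2 * Real.sqrt K) := by
        apply mul_le_mul hRs h1 hlogpos.le (Real.sqrt_nonneg _)
    _ = c / 2 * K := by rw [← mul_assoc, mul_comm (Real.sqrt K) (c / 2), mul_assoc, hss]

theorem final_real (c ρ Z s K M φ h L G Q : ℝ) (hc : 0 < c) (hρ : 0 < ρ) (hZ : 0 < Z)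
    (hK : 0 < K) (hM : 0 < M) (hφ : 0 < φ) (hh : 0 < h) (hL : 0 < L) (hs : ρ * Z ≤ s)
    (hM2 : M ≤ 20 * Z) (hG : φ / h * (L / 1280) ≤ G) (hQ : c / 2 * s * (h / φ) * K / L ≤ Q) :
    c * ρ / 51200 * K ≤ G / M * Q := by
  have hs0 : 0 < s := lt_of_lt_of_le (by positivity) hs
  have h1 : c * ρ / 51200 * K = c * (ρ * Z) / (2560 * (20 * Z)) * K := by
    field_simp
    ring
  have h2 : c * (ρ * Z) / (2560 * (20 * Z)) * K ≤ c * s / (2560 * M) * K := by
    gcongr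
  have h3 : c * s / (2560 * M) * K =
      (φ / h * (L / 1280)) / M * (c / 2 * s * (h / φ) * K / L) := by
    field_simp
    ring
  have h4 : (φ / h * (L / 1280)) / M * (c / 2 * s * (h / φ) * K / L) ≤ G / M * Q := by
    apply mul_le_mul _ hQ (by positivity)
    · have : 0 < φ / h * (L / 1280) := by positivity
      have hG0 : 0 < G := lt_of_lt_of_le this hG
      positivity
    · gcongr
  rw [h1]
  exact h2.trans (h3.trans_le h4)

theorem bound_pow_log (x z M : ℝ) (C1 u : ℕ) (hz : 1 ≤ z) (hM : 0 < M) (hx0 : 0 ≤ x)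
    (hx : x ≤ 2 * z ^ 67) (hu : 67 * C1 + 1 ≤ u) (hMz : z ^ u ≤ M) :
    x ^ C1 / M ≤ 2 ^ C1 / z := by
  have hzpos : 0 < z := by linarith
  rw [div_le_div_iff₀ hM hzpos]
  calc x ^ C1 * z ≤ (2 * z ^ 67) ^ C1 * z := by gcongr
    _ = 2 ^ C1 * z ^ (67 * C1 + 1) := by
        rw [mul_pow, ← pow_mul, pow_succ]; ring
    _ ≤ 2 ^ C1 * z ^ u := by gcongr
    _ ≤ 2 ^ C1 * M := by gcongr

theorem bound_G (x z M : ℝ) (u : ℕ) (hz : 1 ≤ z) (hM : 0 < M) (hx0 : 0 ≤ x)
    (hx : x ≤ (2 * z ^ 67) ^ 2) (hu : 671 ≤ u) (hMz : z ^ u ≤ M) :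
    x ^ 5 / M ≤ 1024 / z := by
  have hzpos : 0 < z := by linarith
  rw [div_le_div_iff₀ hM hzpos]
  have h1 : x ^ 5 ≤ ((2 * z ^ 67) ^ 2) ^ 5 := pow_le_pow_left₀ hx0 hx 5
  have h2 : ((2 * z ^ 67) ^ 2) ^ 5 * z = 1024 * z ^ (670 + 1) := by
    rw [pow_succ, ← pow_mul, mul_pow, ← pow_mul]
    norm_num
    ring
  have h3 : z ^ (670 + 1) ≤ z ^ u := pow_le_pow_right₀ hz (by omega)
  calc x ^ 5 * z ≤ ((2 * z ^ 67) ^ 2) ^ 5 * z := by gcongr
    _ = 1024 * z ^ (670 + 1) := h2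
    _ ≤ 1024 * M := by
        have := h3.trans hMz
        gcongr

theorem bound_h (L z h : ℝ) (n : ℕ) (hn : 100 ≤ n) (hzn : z = n) (hh : (2 : ℝ) ^ (n ^ 2) ≤ h)
    (hL : L ≤ z ^ 67) : (1 + L) / h ≤ 2 / z := by
  have hn' : (100 : ℝ) ≤ n := by exact_mod_cast hn
  have hzpos : 0 < z := by rw [hzn]; linarith
  have hhpos : 0 < h := lt_of_lt_of_le (by positivity) hh
  have h3 : n ^ 68 ≤ 2 ^ n ^ 2 := by
    calc n ^ 68 ≤ n ^ n := Nat.pow_le_pow_right (by omega) (by omega)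
      _ ≤ (2 ^ n) ^ n := Nat.pow_le_pow_left (Nat.lt_two_pow_self).le _
      _ = 2 ^ n ^ 2 := by rw [← pow_mul, sq]
  have h2z : (n : ℝ) ^ 68 ≤ (2 : ℝ) ^ (n ^ 2) := by exact_mod_cast h3
  rw [div_le_div_iff₀ hhpos hzpos, hzn] at *
  have h67 : (1 : ℝ) ≤ (n : ℝ) ^ 67 := one_le_pow₀ (by linarith)
  have h4 : (1 + L) * n ≤ (2 * (n : ℝ) ^ 67) * n := by
    apply mul_le_mul_of_nonneg_right _ (by linarith)
    linarith
  have h5 : (2 * (n : ℝ) ^ 67) * n = 2 * (n : ℝ) ^ 68 := by ring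
  linarith

theorem max_bound (C0 a b b' z D : ℝ) (hz : 0 < z) (hb0 : 0 ≤ b) (hb : b ≤ b' / z)
    (hD : D = max C0 0 * (1 + b')) (ha : a = C0 * b) : C0 / z + a ≤ D / z := by
  have h1 : C0 / z + a = C0 * (1 / z + b) := by rw [ha]; ring
  have h2 : C0 * (1 / z + b) ≤ max C0 0 * (1 / z + b) :=
    mul_le_mul_of_nonneg_right (le_max_left _ _) (by positivity)
  have h3 : max C0 0 * (1 / z + b) ≤ max C0 0 * (1 / z + b' / z) :=
    mul_le_mul_of_nonneg_left (by linarith) (le_max_right _ _)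
  have h4 : max C0 0 * (1 / z + b' / z) = D / z := by rw [hD]; ring
  linarith

theorem claimF3 : ClaimF3 := by
  intro hRS hSM hC1 hC8 hPS hE1 hE2 hF1 hF2
  obtain ⟨C1, hSM⟩ := hSM
  set u : ℕ := 67 * C1 + 672 with hu
  obtain ⟨C0, hSM⟩ := hSM u
  obtain ⟨ρ, hρ, zE1, hE1⟩ := hE1 u (by omega)
  obtain ⟨zE2, hE2⟩ := hE2 u
  obtain ⟨c, hc, zP, hPS⟩ := hPS
  set δ : ℝ := c * ρ / 51200 with hδdef
  have hδ : 0 < δ := by positivity
  obtain ⟨ε, hε, c', hc', M0, hcore⟩ := F3_core hRS hC1 hC8 hF1 hF2 δ hδ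
  set C : ℝ := max C0 0 with hC
  have hC0 : 0 ≤ C := le_max_right _ _
  set D0 : ℝ := C * (1 + 2 ^ C1) with hD0
  have hD0' : 0 ≤ D0 := by positivity
  set NI : ℝ := (Idx.powerset.card : ℝ) with hNI
  have hNI0 : 0 ≤ NI := by positivity
  -- thresholds
  have hth : ∀ b : ℝ, 0 < b → ∀ a : ℝ, ∃ z1 : ℕ, ∀ z : ℕ, z1 ≤ z → a / z ≤ b := by
    intro b hb a
    have h1 := tendsto_const_div_atTop_nhds_zero_nat a
    have h2 := (h1.eventually (ge_mem_nhds hb))
    obtain ⟨z1, hz1⟩ := Filter.eventually_atTop.mp h2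
    exact ⟨z1, hz1⟩
  obtain ⟨t1, ht1⟩ := hth (δ ^ 2 / 128) (by positivity) (NI * (D0 / ε ^ 2))
  obtain ⟨t2, ht2⟩ := hth (δ ^ 2 / 128) (by positivity) 2
  obtain ⟨t3, ht3⟩ := hth (c' / 2) (by positivity) 1024
  obtain ⟨t4, ht4⟩ := hth 1 one_pos D0
  obtain ⟨t5, ht5⟩ := hth 1 one_pos (16 / c)
  refine ⟨u, t1 + t2 + t3 + t4 + t5 + zE1 + zE2 + zP + M0 + 100, ?_⟩
  intro z hz hgood
  have hz100 : 100 ≤ z := by omega
  have hzR : (100 : ℝ) ≤ z := by exact_mod_cast hz100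
  have hzpos : (0 : ℝ) < z := by linarith
  have ht1 := ht1 z (by omega)
  have ht2 := ht2 z (by omega)
  have ht3 := ht3 z (by omega)
  have ht4 := ht4 z (by omega)
  have ht5 := ht5 z (by omega)
  have hScard := hE1 z (by omega)
  obtain ⟨hhexp, hh2, hhdvd⟩ := hE2 z (by omega)
  set h : ℕ := h0 u z with hhdef
  have hhpos : 1 ≤ h := le_trans Nat.one_le_two_pow hh2
  set S : Finset ℕ := Sset u z with hSdef
  have hzu : 1 ≤ z ^ u := Nat.one_le_pow _ _ (by omega)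
  have hSne : S.Nonempty := by
    rw [Finset.nonempty_iff_ne_empty]
    intro he
    rw [he] at hScard
    simp at hScard
    have : 0 < ρ * (z : ℝ) ^ u := by positivity
    linarith
  have hSmem : ∀ w ∈ S, 1 ≤ w ∧ w ≤ z ^ u := by
    intro w hw
    simp only [hSdef, Sset, mem_filter, mem_Icc] at hw
    exact hw.1
  obtain ⟨K, hK1, hK2, hKS⟩ := hPS z (by omega) hgood h hhpos S hSne (by
    intro w hw
    obtain ⟨hw1, hw2⟩ := hSmem w hw
    refine ⟨hw1, ?_, ?_⟩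
    · refine le_trans ?_ hhexp
      exact_mod_cast Nat.mul_le_mul_left h hw2
    · intro p hp hpw
      apply hhdvd p hp
      simp only [hSdef, Sset, mem_filter] at hw
      exact (hw.2.2 p (Nat.mem_primeFactors.mpr ⟨hp, hpw, by omega⟩)).1)
  have hlogK : 0 < Real.log K := lt_of_lt_of_le (by positivity) hK1
  have hKpos : 1 ≤ K := by
    rcases Nat.eq_zero_or_pos K with h' | h'
    · rw [h'] at hlogK; simp at hlogK
    · exact h'
  have hKposR : (0 : ℝ) < K := by exact_mod_cast hKpos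
  obtain ⟨hRz, hRlog⟩ := Rlev_lower (K := K) (z := z) (by omega) hK1
  set R : ℕ := Rlev K with hRdef
  have hRK : R ^ 640 ≤ K := Rlev_pow_le K
  have hR1 : 1 ≤ R := by omega
  -- the prime M
  obtain ⟨M, hMp, hM1, hM2⟩ := Nat.exists_prime_lt_and_le_two_mul (10 * z ^ u) (by omega)
  have : NeZero M := ⟨hMp.ne_zero⟩
  have hzzu : z ≤ z ^ u := Nat.le_self_pow (by omega) z
  have hMR : (z : ℝ) ^ u ≤ M := by
    have : z ^ u ≤ M := by omega
    exact_mod_cast this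
  have hMR2 : (M : ℝ) ≤ 20 * (z : ℝ) ^ u := by
    have : M ≤ 20 * z ^ u := by omega
    exact_mod_cast this
  have hMpos : (0 : ℝ) < M := by exact_mod_cast hMp.pos
  -- size of 1 + log R
  have hlogR : 1 + Real.log R ≤ 2 * (z : ℝ) ^ 67 := by
    have h1 : Real.log R ≤ Real.log K := by
      apply Real.log_le_log (by exact_mod_cast hR1)
      have : R ≤ K := (Nat.le_self_pow (by norm_num) R).trans hRK
      exact_mod_cast this
    have h2 : (1 : ℝ) ≤ (z : ℝ) ^ 67 := one_le_pow₀ (by linarith)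
    linarith
  have hlogR0 : 0 ≤ 1 + Real.log R := by
    have : 0 ≤ Real.log R := Real.log_natCast_nonneg R
    linarith
  set η : ℝ := D0 / z with hη
  have hSM' : ∀ A ⊆ Idx, (∑ k ∈ Icc 1 K, (XA h R (z ^ u) M A k - 1) ^ 2) / (K : ℝ) ≤ η := by
    intro A hA
    have h1 := hSM z h R K M hMp (by omega) (by omega) (by omega) hhpos hhdvd hRz hRK hKpos A hA
    refine le_trans h1 ?_
    have h2 : (1 + Real.log R) ^ C1 / M ≤ 2 ^ C1 / z :=
      bound_pow_log _ _ _ C1 u (by linarith) hMpos hlogR0 hlogR (by omega) hMR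
    exact max_bound C0 _ ((1 + Real.log R) ^ C1 / M) (2 ^ C1) z D0 hzpos
      (div_nonneg (pow_nonneg hlogR0 _) hMpos.le) h2 rfl (mul_div_assoc _ _ _)
  have hcnt : NI * (η / ε ^ 2) ≤ δ ^ 2 / 128 := by
    have : NI * (η / ε ^ 2) = NI * (D0 / ε ^ 2) / z := by rw [hη]; ring
    rw [this]; exact ht1
  have hlogh : (1 + Real.log K) / h ≤ δ ^ 2 / 128 := by
    refine le_trans ?_ ht2
    have hh2' : (2 : ℝ) ^ (z ^ 2) ≤ h := by exact_mod_cast hh2
    exact bound_h (Real.log K) z h z hz100 rfl hh2' hK2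
  have hC1' := hC1 h R hhpos hR1
  have hG : Gs h R ^ 5 / M < c' := by
    have hG1 : Gs h R ≤ (2 * (z : ℝ) ^ 67) ^ 2 := by
      refine hC1'.2.2.2.2.1.trans ?_
      gcongr
    have hG0 : 0 ≤ Gs h R := by
      have := hC1'.2.2.2.1
      linarith
    have h1 : Gs h R ^ 5 / M ≤ 1024 / z :=
      bound_G _ _ _ u (by linarith) hMpos hG0 hG1 (by omega) hMR
    have h2 : c' / 2 < c' := by linarith
    exact h1.trans_lt (ht3.trans_lt h2)
  have hsum : δ * K ≤ ∑ k ∈ Icc 1 K, (𝔼 v : ZMod M, fk h R k S v) := by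
    have hG0 : 0 ≤ Gs h R := by
      have := hC1'.2.2.2.1
      linarith
    refine le_trans ?_ (sum_fk_lower h R K S M (fun w hw => by
      have := (hSmem w hw).2
      omega) hG0)
    set P : ℝ := ∑ w ∈ S, (((Icc 1 K).filter (fun k => (1 + k * (h * w)).Prime)).card : ℝ) with hP
    have hφpos : (0 : ℝ) < (Nat.totient h : ℝ) := by exact_mod_cast Nat.totient_pos.mpr hhpos
    have hhR : (0 : ℝ) < h := by exact_mod_cast hhpos
    have hratio : 1 ≤ (h : ℝ) / (Nat.totient h : ℝ) := by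
      rw [one_le_div hφpos]
      exact_mod_cast Nat.totient_le h
    have hScardpos : (0 : ℝ) < S.card := by exact_mod_cast hSne.card_pos
    have hR' : (R : ℝ) ≤ c / 2 * K / Real.log K := by
      apply log_le_sixteenth K c hc _ R hRK
      refine le_trans ?_ hK1
      have h1 : 16 / c ≤ z := by
        rw [div_le_one hzpos] at ht5
        exact ht5
      have h2 : (z : ℝ) ≤ (z : ℝ) ^ 65 := le_self_pow₀ (by linarith) (by norm_num)
      linarith
    have hPlow : c / 2 * (S.card : ℝ) * ((h : ℝ) / (Nat.totient h : ℝ)) * K / Real.log K ≤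
        P - (S.card : ℝ) * R := by
      have h1 : (S.card : ℝ) * R ≤ c / 2 * (S.card : ℝ) * ((h : ℝ) / (Nat.totient h : ℝ)) * K /
          Real.log K := by
        calc (S.card : ℝ) * R ≤ (S.card : ℝ) * (c / 2 * K / Real.log K) := by gcongr
          _ = (c / 2 * (S.card : ℝ) * K / Real.log K) * 1 := by ring
          _ ≤ (c / 2 * (S.card : ℝ) * K / Real.log K) * ((h : ℝ) / (Nat.totient h : ℝ)) := by
              gcongr
          _ = c / 2 * (S.card : ℝ) * ((h : ℝ) / (Nat.totient h : ℝ)) * K / Real.log K := by ring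
      have h2 : c * (S.card : ℝ) * ((h : ℝ) / (Nat.totient h : ℝ)) * K / Real.log K =
          2 * (c / 2 * (S.card : ℝ) * ((h : ℝ) / (Nat.totient h : ℝ)) * K / Real.log K) := by ring
      rw [h2] at hKS
      linarith
    have hGlow : (Nat.totient h : ℝ) / (h : ℝ) * (Real.log K / 1280) ≤ Gs h R := by
      refine le_trans ?_ hC1'.2.2.1
      gcongr
    exact final_real c ρ ((z : ℝ) ^ u) S.card K M _ h (Real.log K) _ _ hc hρ (by positivity)
      hKposR hMpos hφpos hhR hlogK hScard hMR2 hGlow hPlow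
  exact hcore M hMp (by omega) (by omega) h R (z ^ u) K η S hhpos hR1 hKpos (by omega) hSmem hSM'
    ht4 hcnt hlogh hG hsum

end D159
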