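import Pool.Agent.Work.MP_d159ed_nt.Bd.B01
import Pool.Agent.Work.MP_d159ed_nt.Bd.B02
import Pool.Agent.Work.MP_d159ed_nt.Bd.B03
import Pool.Agent.Work.MP_d159ed_nt.Bd.B04
import Pool.Agent.Work.MP_d159ed_nt.B4b
import Pool.Agent.Work.MP_d159ed_nt.Bd.B05
import Pool.Agent.Work.MP_d159ed_nt.D8a
import Pool.Agent.Work.MP_d159ed_nt.F12
import Pool.Agent.Work.MP_d159ed_nt.F3

/-!
# MP_d159ed_nt: final assembly
-/

set_option autoImplicit false

namespace D159

theorem szem5 : Szem5 :=
  szem5_of_claims claimA1 claimA2a claimA2b claimA3a claimA3b claimA3c claimA4 claimA5a claimA5b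
    claimA6 claimA7 claimA8

theorem relSzem5 : RelSzem5 :=
  relSzem5_of_claims claimB1 claimB2a claimB2b claimB3 claimB4a claimB4b claimB5 szem5

theorem secondMoment : SecondMoment :=
  secondMoment_of_claims claimC1 claimC2 claimC2' claimC3 claimC4 claimC5 claimC6 claimC7 claimC8
    claimC9

theorem goodZInfinite_and_primesInS : GoodZInfinite ∧ PrimesInS :=
  primes_of_claims claimD1 claimD1' claimD2 claimD2b claimD3 claimD4 claimD5 claimD6 claimD7a
    claimD7b claimD7c claimD7d claimD7e claimD7 claimD8a claimD8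

theorem primeAP : PrimeAP :=
  claimF3 relSzem5 secondMoment claimC1 claimC8 goodZInfinite_and_primesInS.2 claimE1 claimE2
    claimF1 claimF2

/-- There are infinitely many 5-term arithmetic progressions of base-2 pseudoprimes. -/
theorem infinite_five_term :
    Set.Infinite {p : ℕ × ℕ | 0 < p.2 ∧ ∀ i : ℕ, i < 5 →
      (1 < p.1 + i * p.2 ∧ ¬ (p.1 + i * p.2).Prime ∧
        (p.1 + i * p.2) ∣ 2 ^ (p.1 + i * p.2) - 2)} :=
  final primeAP goodZInfinite_and_primesInS.1 claimE2 (claimE3 claimE3a claimE3c claimE3d) claimE4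

end D159
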